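import Pool.Agent.TNY.Defs

/-!
# TNY/Bil: the bilinear estimate for one modulus (difficulty 3)

For a unit `u` of `ZMod d` let `α u` = number of `a ∈ A` with `(a : ZMod d) = u`, `β u` the same for `B`.  As all elements of `A`, `B` are prime to `d`:
`∑ α = A.card`, `∑ β = B.card` (sums over the units), and `d ∣ a b + h` iff `b = - h a⁻¹` in `ZMod d`, so the number of pairs is
`∑_u α u * β (σ u)` with the bijection `σ u = - h u⁻¹` of the units (`h` is a unit).  With `φ = totient d`, `α' = α - A.card / φ`, `β' = β - B.card / φ`: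
`∑ α' u β' (σ u) = (number of pairs) - A.card B.card / φ`.  Cauchy-Schwarz: `≤ √(∑ α' ^ 2 * ∑ β' ^ 2)`, and `∑_u α' u ^ 2 ≤ ∑_u (α u - A.card / d) ^ 2`
(`A.card / φ` is the mean of `α` on the units: it minimizes the sum of squares) `≤ Vd d A` (all residues; a unit `u` corresponds to the residue `u.val`).
-/

namespace Pool.Agent.TNY

open Pool.Agent.TN Finset

/-- the unit of `ZMod d` given by `a` -/
private noncomputable def bilF (d : ℕ) (a : ℕ) : (ZMod d)ˣ :=
  if h : Nat.Coprime a d then ZMod.unitOfCoprime a h else 1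

private lemma bilF_coe {d a : ℕ} (h : Nat.Coprime a d) : ((bilF d a : (ZMod d)ˣ) : ZMod d) = a := by
  unfold bilF
  rw [dif_pos h, ZMod.coe_unitOfCoprime]

private noncomputable def bilα (d : ℕ) (A : Finset ℕ) (u : (ZMod d)ˣ) : ℝ :=
  ((A.filter (fun a => bilF d a = u)).card : ℝ)

private lemma bil_sum {d : ℕ} [NeZero d] (A : Finset ℕ) (g : (ZMod d)ˣ → ℝ) :
    ∑ a ∈ A, g (bilF d a) = ∑ u : (ZMod d)ˣ, bilα d A u * g u := by
  rw [← Finset.sum_fiberwise A (bilF d) (fun a => g (bilF d a))]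
  apply Finset.sum_congr rfl
  intro u _
  unfold bilα
  rw [← nsmul_eq_mul, ← Finset.sum_const]
  apply Finset.sum_congr rfl
  intro a ha
  rw [(Finset.mem_filter.1 ha).2]

private lemma bil_card {d : ℕ} [NeZero d] (A : Finset ℕ) : ∑ u : (ZMod d)ˣ, bilα d A u = A.card := by
  have h := bil_sum A (fun _ : (ZMod d)ˣ => (1 : ℝ))
  simp only [mul_one] at h
  rw [← h, Finset.sum_const, nsmul_eq_mul, mul_one]

private lemma bil_V {d : ℕ} [NeZero d] (A : Finset ℕ) (hA : ∀ a ∈ A, Nat.Coprime a d) :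
    ∑ u : (ZMod d)ˣ, (bilα d A u - (A.card : ℝ) / (Nat.totient d : ℝ)) ^ 2 ≤ Vd d A := by
  have hd : (0 : ℝ) < d := by
    have := NeZero.ne d
    positivity
  have hφ : (0 : ℝ) < (Nat.totient d : ℝ) := by
    have : 0 < Nat.totient d := Nat.totient_pos.2 (Nat.pos_of_ne_zero (NeZero.ne d))
    exact_mod_cast this
  have hcard : ((Finset.univ : Finset (ZMod d)ˣ).card : ℝ) = (Nat.totient d : ℝ) := by
    rw [Finset.card_univ, ZMod.card_units_eq_totient]
  have hS := bil_card (d := d) A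
  have hexp : ∀ c : ℝ, ∑ u : (ZMod d)ˣ, (bilα d A u - c) ^ 2 =
      ∑ u : (ZMod d)ˣ, (bilα d A u) ^ 2 - 2 * c * A.card + Nat.totient d * c ^ 2 := by
    intro c
    have h1 : ∀ u : (ZMod d)ˣ, (bilα d A u - c) ^ 2 = (bilα d A u) ^ 2 - 2 * c * bilα d A u + c ^ 2 := by
      intro u
      ring
    rw [Finset.sum_congr rfl (fun u _ => h1 u), Finset.sum_add_distrib, Finset.sum_sub_distrib,
      ← Finset.mul_sum, hS, Finset.sum_const, nsmul_eq_mul, hcard]
  have h1 : ∑ u : (ZMod d)ˣ, (bilα d A u - (A.card : ℝ) / (Nat.totient d : ℝ)) ^ 2 ≤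
      ∑ u : (ZMod d)ˣ, (bilα d A u - (A.card : ℝ) / d) ^ 2 := by
    rw [hexp, hexp]
    have h2 : 0 ≤ (Nat.totient d : ℝ) * ((A.card : ℝ) / d - (A.card : ℝ) / (Nat.totient d : ℝ)) ^ 2 := by positivity
    have h3 : (Nat.totient d : ℝ) * ((A.card : ℝ) / d - (A.card : ℝ) / (Nat.totient d : ℝ)) ^ 2 =
        (Nat.totient d : ℝ) * ((A.card : ℝ) / d) ^ 2 - 2 * ((A.card : ℝ) / d) * A.card +
          (A.card : ℝ) * A.card / (Nat.totient d : ℝ) := by
      field_simp
      ring
    have h4 : (Nat.totient d : ℝ) * ((A.card : ℝ) / (Nat.totient d : ℝ)) ^ 2 =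
        (A.card : ℝ) * A.card / (Nat.totient d : ℝ) := by
      field_simp
    have h5 : 2 * ((A.card : ℝ) / (Nat.totient d : ℝ)) * A.card =
        2 * ((A.card : ℝ) * A.card / (Nat.totient d : ℝ)) := by
      field_simp
    rw [h4, h5]
    rw [h3] at h2
    linarith
  refine h1.trans ?_
  have hα : ∀ u : (ZMod d)ˣ, bilα d A u = ((A.filter (fun a => a % d = (u : ZMod d).val)).card : ℝ) := by
    intro u
    unfold bilα
    congr 2
    apply Finset.filter_congr
    intro a ha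
    rw [← ZMod.val_natCast, Units.ext_iff, bilF_coe (hA a ha)]
    exact ⟨fun h => by rw [h], fun h => ZMod.val_injective d h⟩
  unfold Vd
  have hinj : Set.InjOn (fun u : (ZMod d)ˣ => (u : ZMod d).val) ((Finset.univ : Finset (ZMod d)ˣ) : Set (ZMod d)ˣ) := by
    intro u _ v _ h
    exact Units.ext (ZMod.val_injective d h)
  calc ∑ u : (ZMod d)ˣ, (bilα d A u - (A.card : ℝ) / d) ^ 2
      = ∑ r ∈ (Finset.univ : Finset (ZMod d)ˣ).image (fun u : (ZMod d)ˣ => (u : ZMod d).val),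
          (((A.filter (fun a => a % d = r)).card : ℝ) - (A.card : ℝ) / d) ^ 2 := by
        rw [Finset.sum_image hinj]
        apply Finset.sum_congr rfl
        intro u _
        rw [hα u]
    _ ≤ ∑ r ∈ range d, (((A.filter (fun a => a % d = r)).card : ℝ) - (A.card : ℝ) / d) ^ 2 := by
        apply Finset.sum_le_sum_of_subset_of_nonneg
        · intro r hr
          obtain ⟨u, _, rfl⟩ := Finset.mem_image.1 hr
          exact Finset.mem_range.2 (ZMod.val_lt _)
        · intro r _ _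
          positivity

theorem bil {d h : ℕ} (hd : 1 < d) (hh : Nat.Coprime h d) (A B : Finset ℕ)
    (hA : ∀ a ∈ A, Nat.Coprime a d) (hB : ∀ b ∈ B, Nat.Coprime b d) :
    |(((A ×ˢ B).filter (fun x => d ∣ x.1 * x.2 + h)).card : ℝ) -
        (A.card : ℝ) * B.card / (Nat.totient d : ℝ)| ≤ Real.sqrt (Vd d A * Vd d B) := by
  have : NeZero d := ⟨by omega⟩
  have hφ : (0 : ℝ) < (Nat.totient d : ℝ) := by
    have : 0 < Nat.totient d := Nat.totient_pos.2 (by omega)
    exact_mod_cast this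
  have hcard : ((Finset.univ : Finset (ZMod d)ˣ).card : ℝ) = (Nat.totient d : ℝ) := by
    rw [Finset.card_univ, ZMod.card_units_eq_totient]
  set c : (ZMod d)ˣ := -bilF d h with hc
  let σ : (ZMod d)ˣ ≃ (ZMod d)ˣ := (Equiv.inv (ZMod d)ˣ).trans (Equiv.mulLeft c)
  have hσ : ∀ u, σ u = c * u⁻¹ := fun u => rfl
  have hiff : ∀ a ∈ A, ∀ b ∈ B, d ∣ a * b + h ↔ bilF d b = σ (bilF d a) := by
    intro a ha b hb
    rw [hσ, eq_mul_inv_iff_mul_eq, Units.ext_iff, Units.val_mul, bilF_coe (hA a ha), bilF_coe (hB b hb), hc,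
      Units.val_neg, bilF_coe hh, ← ZMod.natCast_eq_zero_iff]
    push_cast
    rw [mul_comm (b : ZMod d)]
    exact ⟨fun h1 => eq_neg_of_add_eq_zero_left h1, fun h1 => by rw [h1, neg_add_cancel]⟩
  have hN : (((A ×ˢ B).filter (fun x => d ∣ x.1 * x.2 + h)).card : ℝ) =
      ∑ u : (ZMod d)ˣ, bilα d A u * bilα d B (σ u) := by
    rw [← bil_sum A (fun u => bilα d B (σ u)), Finset.card_filter, Finset.sum_product]
    push_cast
    apply Finset.sum_congr rfl
    intro a ha
    unfold bilα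
    rw [Finset.card_filter]
    push_cast
    apply Finset.sum_congr rfl
    intro b hb
    exact if_congr (hiff a ha b hb) rfl rfl
  have hSA := bil_card (d := d) A
  have hSB : ∑ u : (ZMod d)ˣ, bilα d B (σ u) = B.card := by
    rw [Equiv.sum_comp σ (bilα d B)]
    exact bil_card B
  have hmain : (((A ×ˢ B).filter (fun x => d ∣ x.1 * x.2 + h)).card : ℝ) -
        (A.card : ℝ) * B.card / (Nat.totient d : ℝ) =
      ∑ u : (ZMod d)ˣ, (bilα d A u - (A.card : ℝ) / (Nat.totient d : ℝ)) *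
        (bilα d B (σ u) - (B.card : ℝ) / (Nat.totient d : ℝ)) := by
    have h1 : ∀ u : (ZMod d)ˣ, (bilα d A u - (A.card : ℝ) / (Nat.totient d : ℝ)) *
        (bilα d B (σ u) - (B.card : ℝ) / (Nat.totient d : ℝ)) =
        bilα d A u * bilα d B (σ u) - (B.card : ℝ) / (Nat.totient d : ℝ) * bilα d A u -
          (A.card : ℝ) / (Nat.totient d : ℝ) * bilα d B (σ u) +
          (A.card : ℝ) / (Nat.totient d : ℝ) * ((B.card : ℝ) / (Nat.totient d : ℝ)) := by
      intro u
      ring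
    rw [Finset.sum_congr rfl (fun u _ => h1 u), Finset.sum_add_distrib, Finset.sum_sub_distrib,
      Finset.sum_sub_distrib, ← Finset.mul_sum, ← Finset.mul_sum, hSA, hSB, Finset.sum_const, nsmul_eq_mul,
      hcard, ← hN]
    field_simp
    ring
  rw [hmain]
  apply Real.abs_le_sqrt
  refine (Finset.sum_mul_sq_le_sq_mul_sq _ _ _).trans ?_
  have hVB : ∑ u : (ZMod d)ˣ, (bilα d B (σ u) - (B.card : ℝ) / (Nat.totient d : ℝ)) ^ 2 ≤ Vd d B := by
    rw [Equiv.sum_comp σ (fun u => (bilα d B u - (B.card : ℝ) / (Nat.totient d : ℝ)) ^ 2)]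
    exact bil_V B hB
  have hVA := bil_V A hA
  refine mul_le_mul hVA hVB (Finset.sum_nonneg fun u _ => sq_nonneg _) ?_
  exact (Finset.sum_nonneg fun u _ => sq_nonneg _).trans hVA

end Pool.Agent.TNY
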