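import Pool.Agent.TNY.Defs

/-!
# TNY/Cell: the cells (difficulty 2)

* `Av_fac`: `a = ∏ f i` with `f i ∈ Pv v`: a prime factor of `a` is one of the `f i` (`Prime.dvd_finsetProd_iff`).
* `Av_bound`: `v < f i ^ 2`, `f i ≤ v` for all `i`; products over `Fin r`.
* `card_Pairs_filter`: the products `Ai v r i ×ˢ Bi v X i` are disjoint (`clog 2 a = i`): `Finset.card_biUnion`, `Finset.filter_biUnion`.
* `Pairs_inj`: `a b = a' b'`; the prime factors of `a, a'` are `> √v`, those of `b, b'` are `≤ √v` (`le_P`), so `a` is coprime to `b'`, `a ∣ a'` and symmetrically.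
* `Pairs_spec`: `a ≤ 2 ^ i` (`Nat.le_pow_clog`), `b ≤ X / 2 ^ i`; `P (a b) ≤ v`.
-/

namespace Pool.Agent.TNY

open Pool.Agent.TN Finset

theorem Av_fac {v r a p : ℕ} (ha : a ∈ Av v r) (hp : p.Prime) (hpa : p ∣ a) : p ∈ Pv v := by
  unfold Av at ha
  rw [Finset.mem_image] at ha
  obtain ⟨f, hf, rfl⟩ := ha
  rw [Fintype.mem_piFinset] at hf
  obtain ⟨i, -, hi⟩ := (Prime.dvd_finsetProd_iff hp.prime _).1 hpa
  have h1 := (mem_Pv.1 (hf i)).1.2
  rw [(Nat.prime_dvd_prime_iff_eq hp h1).1 hi]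
  exact hf i

theorem Av_bound {v r a : ℕ} (ha : a ∈ Av v r) : v ^ r ≤ a ^ 2 ∧ a ≤ v ^ r ∧ 1 ≤ a := by
  unfold Av at ha
  rw [Finset.mem_image] at ha
  obtain ⟨f, hf, rfl⟩ := ha
  rw [Fintype.mem_piFinset] at hf
  refine ⟨?_, ?_, ?_⟩
  · rw [← Finset.prod_pow]
    calc v ^ r = ∏ _i : Fin r, v := by simp
      _ ≤ ∏ i : Fin r, f i ^ 2 := by
        refine Finset.prod_le_prod' fun i _ => ?_
        rw [pow_two]
        exact (mem_Pv.1 (hf i)).2.le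
  · calc ∏ i : Fin r, f i ≤ ∏ _i : Fin r, v := Finset.prod_le_prod' fun i _ => (mem_Pv.1 (hf i)).1.1
      _ = v ^ r := by simp
  · exact Nat.one_le_iff_ne_zero.2 (Finset.prod_ne_zero_iff.2 fun i _ => (mem_Pv.1 (hf i)).1.2.ne_zero)

private theorem cell_disj (v r X : ℕ) :
    Set.PairwiseDisjoint (range (Nat.clog 2 (v ^ r) + 1) : Set ℕ) (fun i => Ai v r i ×ˢ Bi v X i) := by
  intro i _ j _ hij
  rw [Function.onFun, Finset.disjoint_left]
  rintro ⟨a, b⟩ h h'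
  rw [Finset.mem_product] at h h'
  have h1 := (Finset.mem_filter.1 h.1).2
  have h2 := (Finset.mem_filter.1 h'.1).2
  exact hij (h1.symm.trans h2)

theorem card_Pairs_filter (v r X : ℕ) (p : ℕ × ℕ → Prop) [DecidablePred p] :
    ((Pairs v r X).filter p).card =
      ∑ i ∈ range (Nat.clog 2 (v ^ r) + 1), ((Ai v r i ×ˢ Bi v X i).filter p).card := by
  unfold Pairs
  rw [Finset.filter_biUnion, Finset.card_biUnion]
  intro i hi j hj hij
  exact Finset.disjoint_filter_filter (cell_disj v r X hi hj hij)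

theorem card_Pairs (v r X : ℕ) : (Pairs v r X).card =
    ∑ i ∈ range (Nat.clog 2 (v ^ r) + 1), (Ai v r i).card * (Bi v X i).card := by
  unfold Pairs
  rw [Finset.card_biUnion (cell_disj v r X)]
  exact Finset.sum_congr rfl fun i _ => Finset.card_product _ _

theorem Ai_range {v r i a : ℕ} (hr : 1 ≤ r) (ha : a ∈ Ai v r i) :
    1 ≤ i ∧ 2 ^ (i - 1) < a ∧ a ≤ 2 ^ i := by
  unfold Ai at ha
  rw [Finset.mem_filter] at ha
  obtain ⟨ha, rfl⟩ := ha
  have h2 : 1 < a := by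
    have hb := (Av_bound ha).2.2
    unfold Av at ha
    rw [Finset.mem_image] at ha
    obtain ⟨f, hf, rfl⟩ := ha
    rw [Fintype.mem_piFinset] at hf
    have h1 := (mem_Pv.1 (hf ⟨0, hr⟩)).1.2
    have h3 : f ⟨0, hr⟩ ∣ ∏ i, f i := Finset.dvd_prod_of_mem f (Finset.mem_univ _)
    have h4 := Nat.le_of_dvd (by omega) h3
    have h5 := h1.two_le
    omega
  refine ⟨Nat.clog_pos (by norm_num) h2, ?_, Nat.le_pow_clog (by norm_num) a⟩
  exact Nat.pow_pred_clog_lt_self (by norm_num) h2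

private theorem cell_mem {v r X : ℕ} {x : ℕ × ℕ} (hx : x ∈ Pairs v r X) :
    ∃ i, x.1 ∈ Av v r ∧ Nat.clog 2 x.1 = i ∧ 1 ≤ x.2 ∧ x.2 ≤ X / 2 ^ i ∧ P x.2 ≤ Nat.sqrt v := by
  unfold Pairs at hx
  rw [Finset.mem_biUnion] at hx
  obtain ⟨i, -, hi⟩ := hx
  rw [Finset.mem_product] at hi
  have h1 := Finset.mem_filter.1 hi.1
  have h2 := Finset.mem_filter.1 hi.2
  have h3 := Finset.mem_Icc.1 h2.1
  exact ⟨i, h1.1, h1.2, h3.1, h3.2, h2.2⟩

theorem Pairs_spec {v r X : ℕ} {x : ℕ × ℕ} (hx : x ∈ Pairs v r X) :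
    1 ≤ x.1 * x.2 ∧ x.1 * x.2 ≤ X ∧ P (x.1 * x.2) ≤ v := by
  obtain ⟨i, h1, h2, h3, h4, h5⟩ := cell_mem hx
  have h6 := (Av_bound h1).2.2
  refine ⟨Nat.mul_pos h6 h3, ?_, ?_⟩
  · have h7 : x.1 ≤ 2 ^ i := by
      rw [← h2]
      exact Nat.le_pow_clog (by norm_num) _
    calc x.1 * x.2 ≤ 2 ^ i * (X / 2 ^ i) := Nat.mul_le_mul h7 h4
      _ ≤ X := Nat.mul_div_le _ _
  · unfold P
    refine Finset.sup_le fun p hp => ?_
    have hpp := Nat.prime_of_mem_primeFactors hp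
    rcases (Nat.Prime.dvd_mul hpp).1 (Nat.dvd_of_mem_primeFactors hp) with h | h
    · exact (mem_Pv.1 (Av_fac h1 hpp h)).1.1
    · have h7 : p ≤ P x.2 := le_P (Nat.mem_primeFactors.2 ⟨hpp, h, by omega⟩)
      exact (h7.trans h5).trans (Nat.sqrt_le_self v)

private theorem cell_cop {v r a b : ℕ} (ha : a ∈ Av v r) (hb : 1 ≤ b) (hP : P b ≤ Nat.sqrt v) : Nat.Coprime a b := by
  rw [Nat.coprime_iff_gcd_eq_one]
  by_contra hne
  obtain ⟨p, hp, hpd⟩ := Nat.exists_prime_and_dvd hne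
  have h1 := (mem_Pv.1 (Av_fac ha hp (hpd.trans (Nat.gcd_dvd_left _ _)))).2
  have h2 : p ≤ P b := le_P (Nat.mem_primeFactors.2 ⟨hp, hpd.trans (Nat.gcd_dvd_right _ _), by omega⟩)
  have h3 := h2.trans hP
  have h4 := Nat.sqrt_le v
  have h5 := Nat.mul_le_mul h3 h3
  omega

theorem Pairs_inj (v r X : ℕ) : Set.InjOn (fun x : ℕ × ℕ => x.1 * x.2) (Pairs v r X : Set (ℕ × ℕ)) := by
  rintro ⟨a, b⟩ hx ⟨a', b'⟩ hx' h
  obtain ⟨i, h1, -, h3, -, h5⟩ := cell_mem (Finset.mem_coe.1 hx)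
  obtain ⟨i', h1', -, h3', -, h5'⟩ := cell_mem (Finset.mem_coe.1 hx')
  change a * b = a' * b' at h
  have d1 : a ∣ a' := by
    have : a ∣ a' * b' := ⟨b, h.symm⟩
    exact (cell_cop h1 h3' h5').dvd_of_dvd_mul_right this
  have d2 : a' ∣ a := by
    have : a' ∣ a * b := ⟨b', h⟩
    exact (cell_cop h1' h3 h5).dvd_of_dvd_mul_right this
  have e := Nat.dvd_antisymm d1 d2
  subst e
  have h6 := (Av_bound h1).2.2
  have h7 := Nat.eq_of_mul_eq_mul_left (show 0 < a by omega) h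
  rw [h7]

/-- The elements of the cells are prime to the primes larger than `v`. -/
theorem Ai_coprime {v r i a q : ℕ} (ha : a ∈ Ai v r i) (hq : q.Prime) (hqv : v < q) :
    Nat.Coprime a q := by
  rw [Nat.coprime_comm, Nat.Prime.coprime_iff_not_dvd hq]
  intro h
  have := (mem_Pv.1 (Av_fac (Finset.mem_filter.1 ha).1 hq h)).1.1
  omega

theorem Bi_coprime {v X i b q : ℕ} (hb : b ∈ Bi v X i) (hq : q.Prime) (hqv : v < q) :
    Nat.Coprime b q := by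
  rw [Nat.coprime_comm, Nat.Prime.coprime_iff_not_dvd hq]
  intro h
  have h1 := Finset.mem_filter.1 hb
  have h2 := Finset.mem_Icc.1 h1.1
  have h3 : q ≤ P b := le_P (Nat.mem_primeFactors.2 ⟨hq, h, by omega⟩)
  have h4 := Nat.sqrt_le_self v
  have h5 := h1.2
  omega

end Pool.Agent.TNY
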