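import Pool.Agent.TN.Main2
import Pool.Agent.TNX.Defs
import Pool.Agent.TNY.LS

/-!
# TNY/Defs: definitions (for `k(n)` unbounded on sets of positive density)

`Qs y z`: the primes in `(y, z]`.  `Pv v`: the primes in `(√v, v]`.  `Av v r`: the products of `r` primes of `Pv v`.
`Ai v r i`: the `a ∈ Av v r` with `2 ^ (i - 1) < a ≤ 2 ^ i`.  `Bi v X i`: the `b ≤ X / 2 ^ i` with `P b ≤ √v`.
`Pairs v r X`: the union of the `Ai v r i ×ˢ Bi v X i`; the products `a b` are different, at most `X` and `v`-smooth.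
`Vd d A`: the variance of the finite set `A` in the residue classes modulo `d`.
-/

namespace Pool.Agent.TNY

open Pool.Agent.TN Finset

/-- The primes in `(y, z]`. -/
def Qs (y z : ℕ) : Finset ℕ := (Ioc y z).filter Nat.Prime

/-- The primes in `(√v, v]`. -/
def Pv (v : ℕ) : Finset ℕ := (Nat.primesLE v).filter (fun q => v < q * q)

/-- The products of `r` primes of `Pv v`. -/
def Av (v r : ℕ) : Finset ℕ :=
  (Fintype.piFinset (fun _ : Fin r => Pv v)).image (fun f => ∏ i, f i)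

/-- The cell `i` of `Av v r`. -/
def Ai (v r i : ℕ) : Finset ℕ := (Av v r).filter (fun a => Nat.clog 2 a = i)

/-- The `√v`-smooth numbers up to `X / 2 ^ i`. -/
def Bi (v X i : ℕ) : Finset ℕ := (Icc 1 (X / 2 ^ i)).filter (fun b => P b ≤ Nat.sqrt v)

/-- The pairs. -/
def Pairs (v r X : ℕ) : Finset (ℕ × ℕ) :=
  (range (Nat.clog 2 (v ^ r) + 1)).biUnion (fun i => Ai v r i ×ˢ Bi v X i)

/-- The variance of `A` in the residue classes modulo `d`. -/
noncomputable def Vd (d : ℕ) (A : Finset ℕ) : ℝ :=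
  ∑ r ∈ range d, (((A.filter (fun a => a % d = r)).card : ℝ) - (A.card : ℝ) / d) ^ 2

theorem mem_Qs {y z q : ℕ} : q ∈ Qs y z ↔ (y < q ∧ q ≤ z) ∧ q.Prime := by
  unfold Qs
  rw [Finset.mem_filter, Finset.mem_Ioc]

theorem mem_Pv {v q : ℕ} : q ∈ Pv v ↔ (q ≤ v ∧ q.Prime) ∧ v < q * q := by
  unfold Pv
  rw [Finset.mem_filter, Nat.mem_primesLE]

end Pool.Agent.TNY
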