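import Pool.Agent.TNY.Wn
import Pool.Agent.TNX.ScFin

/-!
# TNY/Ds: positive density (difficulty 3)

`density_kk`: `U` from `window_kk K` (we may assume `U ≥ 1`), `k = 4 U`, `c`, `y0`.  For large `N` let `J = Nat.log 4 N` (`4 ^ J ≤ N < 4 ^ (J + 1)`).  For the `i` with
`J / (2 U) ≤ i ≤ J / U` (real inequalities; at least `J / (4 U)` such `i` for large `J`) and `y = 4 ^ i`: `y ^ U ≤ 4 ^ J ≤ N`, `N < 4 ^ (J + 1) ≤ y ^ (4 U)`, `y ≥ y0`; the windows
`y < 4 P n`, `P n ≤ y` (i.e. `4 ^ (i - 1) < P n ≤ 4 ^ i`) are disjoint.  Each gives `≥ c N / (i log 4) ≥ c N U / (J log 4)`.  Total `≥ (J / (4 U)) c N U / (J log 4) = c N / (4 log 4)`.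
`unbounded`: `main` of `TNX/Fin.lean` with `ε = c / 2` (`tn n = kk n * P n` for all but `ε N` of the `n ≤ N`) and `density_kk`: at least `(c / 2) N` of the `n ≤ N` satisfy
`tn n = kk n * P n` and `K < kk n`; `P n > 0` for `n ≥ 2` (for `n = 1`: `P 1 = 0`, `tn 1 > 0`, fine too).
-/

namespace Pool.Agent.TNY

open Pool.Agent.TN Pool.Agent.TNX Finset

private theorem ds_bridge (N : ℕ) (p : ℕ → Prop) [DecidablePred p] :
    {n | (1 ≤ n ∧ n ≤ N) ∧ p n}.ncard = ((Icc 1 N).filter p).card := by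
  rw [← Set.ncard_coe_finset]
  congr 1
  ext n
  rw [Finset.mem_coe, Finset.mem_filter, Finset.mem_Icc]
  rfl

theorem density_kk (K : ℕ) : ∃ c : ℝ, 0 < c ∧ ∃ N0 : ℕ, ∀ N : ℕ, N0 ≤ N →
    c * N ≤ ({n | (1 ≤ n ∧ n ≤ N) ∧ K < kk n}.ncard : ℝ) := by
  classical
  obtain ⟨U, hU⟩ := window_kk K
  obtain ⟨V, hV⟩ : ∃ V : ℕ, V = U + 1 := ⟨_, rfl⟩
  have hV1 : 1 ≤ V := by omega
  obtain ⟨c, hc, y0, h⟩ := hU (4 * V)
  have hlog4 : 0 < Real.log 4 := Real.log_pos (by norm_num)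
  refine ⟨c / (2 * Real.log 4), by positivity, 4 ^ (2 * V * (y0 + 1)), fun N hN => ?_⟩
  have hN0 : N ≠ 0 := by
    have : 0 < 4 ^ (2 * V * (y0 + 1)) := by positivity
    omega
  obtain ⟨J, hJ⟩ : ∃ J : ℕ, J = Nat.log 4 N := ⟨_, rfl⟩
  have hJ0 : 2 * V * (y0 + 1) ≤ J := by
    rw [hJ]
    exact Nat.le_log_of_pow_le (by norm_num) hN
  have hJ1 : 4 ^ J ≤ N := by rw [hJ]; exact Nat.pow_log_le_self 4 hN0
  have hJ2 : N < 4 ^ (J + 1) := by rw [hJ]; exact Nat.lt_pow_succ_log_self (by norm_num) N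
  obtain ⟨q, hq⟩ : ∃ q : ℕ, q = J / (2 * V) := ⟨_, rfl⟩
  have hq1 : y0 + 1 ≤ q := by
    rw [hq, Nat.le_div_iff_mul_le (by omega)]
    calc (y0 + 1) * (2 * V) = 2 * V * (y0 + 1) := by ring
      _ ≤ J := hJ0
  have hq2 : q * (2 * V) ≤ J := by rw [hq]; exact Nat.div_mul_le_self _ _
  have hq3 : J < (q + 1) * (2 * V) := by
    rw [hq]
    have := Nat.lt_div_mul_add (a := J) (b := 2 * V) (by omega)
    calc J < J / (2 * V) * (2 * V) + 2 * V := this
      _ = (J / (2 * V) + 1) * (2 * V) := by ring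
  -- the windows
  obtain ⟨F, hF⟩ : ∃ F : ℕ → Finset ℕ, ∀ i, F i =
    (Icc 1 N).filter (fun n => (4 ^ i < 4 * P n ∧ P n ≤ 4 ^ i) ∧ K < kk n) := ⟨_, fun _ => rfl⟩
  have hcardF : ∀ i ∈ Ioc q (2 * q), c * N / (2 * Real.log 4) / q ≤ ((F i).card : ℝ) := by
    intro i hi
    obtain ⟨hi1, hi2⟩ := Finset.mem_Ioc.mp hi
    have hi0 : y0 ≤ 4 ^ i := by
      have : i < 4 ^ i := Nat.lt_pow_self (by norm_num)
      omega
    have hyU : (4 ^ i) ^ U ≤ N := by
      rw [← pow_mul]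
      refine (Nat.pow_le_pow_right (by norm_num) ?_).trans hJ1
      calc i * U ≤ (2 * q) * V := Nat.mul_le_mul hi2 (by omega)
        _ = q * (2 * V) := by ring
        _ ≤ J := hq2
    have hyk : N ≤ (4 ^ i) ^ (4 * V) := by
      rw [← pow_mul]
      refine hJ2.le.trans (Nat.pow_le_pow_right (by norm_num) ?_)
      calc J + 1 ≤ (q + 1) * (2 * V) := hq3
        _ ≤ i * (4 * V) := Nat.mul_le_mul hi1 (by omega)
    have h1 := h (4 ^ i) N hi0 hyU hyk
    have h2 := ds_bridge N (fun n => (4 ^ i < 4 * P n ∧ P n ≤ 4 ^ i) ∧ K < kk n)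
    rw [h2, ← hF i] at h1
    refine le_trans ?_ h1
    have hq0 : (0 : ℝ) < q := by
      have : 0 < q := by omega
      exact_mod_cast this
    have hi3 : (0 : ℝ) < i := by
      have : 0 < i := by omega
      exact_mod_cast this
    have hi4 : (i : ℝ) ≤ 2 * q := by exact_mod_cast hi2
    have hl : Real.log ((4 ^ i : ℕ) : ℝ) = i * Real.log 4 := by
      push_cast
      rw [Real.log_pow]
    rw [hl]
    calc c * N / (2 * Real.log 4) / q = c * N / (2 * q * Real.log 4) := by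
          field_simp
      _ ≤ c * N / (i * Real.log 4) := by
          apply div_le_div_of_nonneg_left (by positivity) (by positivity)
          exact mul_le_mul_of_nonneg_right hi4 hlog4.le
      _ = c * (N / (i * Real.log 4)) := by ring
  have hdisj : ∀ i ∈ Ioc q (2 * q), ∀ j ∈ Ioc q (2 * q), i ≠ j → Disjoint (F i) (F j) := by
    have key : ∀ i j : ℕ, i < j → Disjoint (F i) (F j) := by
      intro i j hij
      rw [Finset.disjoint_left]
      intro n hn hn'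
      rw [hF i, Finset.mem_filter] at hn
      rw [hF j, Finset.mem_filter] at hn'
      have h1 := hn.2.1.2
      have h2 := hn'.2.1.1
      have h3 : 4 ^ (i + 1) ≤ 4 ^ j := Nat.pow_le_pow_right (by norm_num) hij
      rw [pow_succ] at h3
      omega
    intro i _ j _ hij
    rcases lt_or_gt_of_ne hij with h | h
    · exact key i j h
    · exact (key j i h).symm
  have hunion : ((Ioc q (2 * q)).biUnion F).card = ∑ i ∈ Ioc q (2 * q), (F i).card :=
    Finset.card_biUnion hdisj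
  have hsub : (Ioc q (2 * q)).biUnion F ⊆ (Icc 1 N).filter (fun n => K < kk n) := by
    intro n hn
    obtain ⟨i, _, hi⟩ := Finset.mem_biUnion.mp hn
    rw [hF i, Finset.mem_filter] at hi
    exact Finset.mem_filter.mpr ⟨hi.1, hi.2.2⟩
  have hcard := Finset.card_le_card hsub
  rw [hunion] at hcard
  have hfin := ds_bridge N (fun n => K < kk n)
  rw [hfin]
  have hq0 : (0 : ℝ) < q := by
    have : 0 < q := by omega
    exact_mod_cast this
  calc c / (2 * Real.log 4) * N = ∑ _i ∈ Ioc q (2 * q), c * N / (2 * Real.log 4) / q := by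
        rw [Finset.sum_const, Nat.card_Ioc, nsmul_eq_mul]
        have : ((2 * q - q : ℕ) : ℝ) = q := by
          congr 1
          omega
        rw [this]
        field_simp
    _ ≤ ∑ i ∈ Ioc q (2 * q), ((F i).card : ℝ) := Finset.sum_le_sum hcardF
    _ ≤ _ := by exact_mod_cast hcard

theorem unbounded (K : ℕ) : ∃ c : ℝ, 0 < c ∧ ∃ N0 : ℕ, ∀ N : ℕ, N0 ≤ N →
    c * N ≤ ({n | (1 ≤ n ∧ n ≤ N) ∧ K * P n < tn n}.ncard : ℝ) := by
  classical
  obtain ⟨c, hc, N1, h1⟩ := density_kk K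
  obtain ⟨K', N2, h2⟩ := main (ε := c / 2) (by positivity)
  refine ⟨c / 2, by positivity, max N1 N2, fun N hN => ?_⟩
  have g1 := h1 N ((le_max_left _ _).trans hN)
  have g2 := h2 N ((le_max_right _ _).trans hN)
  have hsub : {n | (1 ≤ n ∧ n ≤ N) ∧ K < kk n} ⊆
      {n | (1 ≤ n ∧ n ≤ N) ∧ K * P n < tn n} ∪
        {n | (1 ≤ n ∧ n ≤ N) ∧ ¬ (tn n = kk n * P n ∧ TNA.F n = tn n ∧ kk n ≤ K')} := by
    rintro n ⟨hn, hk⟩
    by_cases hgood : tn n = kk n * P n ∧ TNA.F n = tn n ∧ kk n ≤ K'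
    · left
      refine ⟨hn, ?_⟩
      have ht := (tn_spec hn.1).1
      rw [hgood.1] at ht ⊢
      have hP : 0 < P n := Nat.pos_of_mul_pos_left ht
      exact Nat.mul_lt_mul_of_pos_right hk hP
    · right
      exact ⟨hn, hgood⟩
  have hfin : ({n | (1 ≤ n ∧ n ≤ N) ∧ K * P n < tn n} ∪
        {n | (1 ≤ n ∧ n ≤ N) ∧ ¬ (tn n = kk n * P n ∧ TNA.F n = tn n ∧ kk n ≤ K')}).Finite := by
    apply (Set.finite_Iic N).subset
    rintro n (hn | hn)
    · exact hn.1.2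
    · exact hn.1.2
  have h3 := (Set.ncard_le_ncard hsub hfin).trans (Set.ncard_union_le _ _)
  have h4 : ({n | (1 ≤ n ∧ n ≤ N) ∧ K < kk n}.ncard : ℝ) ≤
      ({n | (1 ≤ n ∧ n ≤ N) ∧ K * P n < tn n}.ncard : ℝ) +
        ({n | (1 ≤ n ∧ n ≤ N) ∧ ¬ (tn n = kk n * P n ∧ TNA.F n = tn n ∧ kk n ≤ K')}.ncard : ℝ) := by
    exact_mod_cast h3
  linarith

end Pool.Agent.TNY
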