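import Pool.Agent.TNY.V2
import Pool.Agent.TNY.Bil
import Pool.Agent.TNY.Cell

/-!
# TNY/Err: the error terms (difficulty 4)

Let `v = y / 4`, `z = y ^ T`, `Q = Qs y z`, `r = 8 T + 2`, `g q = 1 / (q - 1)` (`totient q = q - 1`, `totient (q q') = (q - 1) (q' - 1)`, `q ∣ n ∧ q' ∣ n` iff
`q q' ∣ n` for different primes; `h` is prime to `q`: `1 ≤ h ≤ y < q`).
`cell_err`: one cell `A = Ai v r i`, `B = Bi v X i`: by `bil` the sum is at most `∑_d √(Vd d A * Vd d B)` over `d = q` and `d = q q'`, which by Cauchy-Schwarz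
(`Finset.sum_sqrt_mul_sqrt_le` or `inner_mul_le_norm_mul_norm`-style) is at most `√((∑ Vd d A) (∑ Vd d B))`.  `sumV` for `A ⊆ Ioc M (M + M)`, `M = 2 ^ (i - 1)`
(`Ai_range`), and for `B ⊆ Ioc 0 (0 + M')`, `M' = X / 2 ^ i`, with `A.card ≤ M`, `B.card ≤ M'`: both sums are `≤ C L (M) ^ 2`, `C L (M') ^ 2`,
`L = (1 + log z) ^ 2 / y`, so the cell contributes at most `C L M M' ≤ C L X`.  (If `A` is empty, the sum is `0`.)
The conditions `z ^ 4 ≤ M`, `z ^ 4 ≤ M'` for a nonempty `A`: `2 M = 2 ^ i ≥ a`, `a ^ 2 ≥ v ^ r ≥ (y / 8) ^ r` (`y ≥ 8`), `y ^ (8 T + 2) / 8 ^ r ≥ 4 y ^ (8 T)` for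
`y ^ 2 ≥ 4 * 8 ^ r`; and `2 ^ i < 2 a ≤ 2 v ^ r ≤ y ^ r / 2`, `X / 2 ^ i ≥ X / y ^ r ≥ y ^ (4 T)`.
`err`: sum over the cells (`card_Pairs`, `card_Pairs_filter`, triangle inequality): `clog 2 (v ^ r) + 1 ≤ r (log y / log 2 + 1) + 2` cells.
-/

namespace Pool.Agent.TNY

open Pool.Agent.TN Finset

/-- the sum of the variances -/
private noncomputable def errS (y z : ℕ) (A : Finset ℕ) : ℝ :=
  ∑ q ∈ Qs y z, Vd q A + ∑ q ∈ Qs y z, ∑ q' ∈ (Qs y z).erase q, Vd (q * q') A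

private theorem Vd_nonneg (d : ℕ) (A : Finset ℕ) : 0 ≤ Vd d A := by
  unfold Vd
  positivity

private theorem err_cs {y z : ℕ} (A B : Finset ℕ) :
    ∑ q ∈ Qs y z, Real.sqrt (Vd q A * Vd q B) +
      ∑ q ∈ Qs y z, ∑ q' ∈ (Qs y z).erase q, Real.sqrt (Vd (q * q') A * Vd (q * q') B) ≤
      2 * (Real.sqrt (errS y z A) * Real.sqrt (errS y z B)) := by
  have hA1 : 0 ≤ ∑ q ∈ Qs y z, Vd q A := Finset.sum_nonneg fun q _ => Vd_nonneg q A
  have hB1 : 0 ≤ ∑ q ∈ Qs y z, Vd q B := Finset.sum_nonneg fun q _ => Vd_nonneg q B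
  have hA2 : 0 ≤ ∑ q ∈ Qs y z, ∑ q' ∈ (Qs y z).erase q, Vd (q * q') A :=
    Finset.sum_nonneg fun q _ => Finset.sum_nonneg fun q' _ => Vd_nonneg _ A
  have hB2 : 0 ≤ ∑ q ∈ Qs y z, ∑ q' ∈ (Qs y z).erase q, Vd (q * q') B :=
    Finset.sum_nonneg fun q _ => Finset.sum_nonneg fun q' _ => Vd_nonneg _ B
  have h1 : ∑ q ∈ Qs y z, Real.sqrt (Vd q A * Vd q B) ≤ Real.sqrt (errS y z A) * Real.sqrt (errS y z B) := by
    calc ∑ q ∈ Qs y z, Real.sqrt (Vd q A * Vd q B) = ∑ q ∈ Qs y z, Real.sqrt (Vd q A) * Real.sqrt (Vd q B) :=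
          Finset.sum_congr rfl fun q _ => Real.sqrt_mul (Vd_nonneg q A) _
      _ ≤ Real.sqrt (∑ q ∈ Qs y z, Vd q A) * Real.sqrt (∑ q ∈ Qs y z, Vd q B) :=
          Real.sum_sqrt_mul_sqrt_le _ (fun q => Vd_nonneg q A) fun q => Vd_nonneg q B
      _ ≤ _ := by
          refine mul_le_mul (Real.sqrt_le_sqrt ?_) (Real.sqrt_le_sqrt ?_) (Real.sqrt_nonneg _) (Real.sqrt_nonneg _)
          · unfold errS; linarith
          · unfold errS; linarith
  have h2 : ∑ q ∈ Qs y z, ∑ q' ∈ (Qs y z).erase q, Real.sqrt (Vd (q * q') A * Vd (q * q') B) ≤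
      Real.sqrt (errS y z A) * Real.sqrt (errS y z B) := by
    calc ∑ q ∈ Qs y z, ∑ q' ∈ (Qs y z).erase q, Real.sqrt (Vd (q * q') A * Vd (q * q') B)
        = ∑ q ∈ Qs y z, ∑ q' ∈ (Qs y z).erase q, Real.sqrt (Vd (q * q') A) * Real.sqrt (Vd (q * q') B) :=
          Finset.sum_congr rfl fun q _ => Finset.sum_congr rfl fun q' _ => Real.sqrt_mul (Vd_nonneg _ A) _
      _ ≤ ∑ q ∈ Qs y z, Real.sqrt (∑ q' ∈ (Qs y z).erase q, Vd (q * q') A) *
            Real.sqrt (∑ q' ∈ (Qs y z).erase q, Vd (q * q') B) :=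
          Finset.sum_le_sum fun q _ =>
            Real.sum_sqrt_mul_sqrt_le _ (fun q' => Vd_nonneg (q * q') A) fun q' => Vd_nonneg (q * q') B
      _ ≤ Real.sqrt (∑ q ∈ Qs y z, ∑ q' ∈ (Qs y z).erase q, Vd (q * q') A) *
            Real.sqrt (∑ q ∈ Qs y z, ∑ q' ∈ (Qs y z).erase q, Vd (q * q') B) :=
          Real.sum_sqrt_mul_sqrt_le _ (fun q => Finset.sum_nonneg fun q' _ => Vd_nonneg (q * q') A)
            fun q => Finset.sum_nonneg fun q' _ => Vd_nonneg (q * q') B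
      _ ≤ _ := by
          refine mul_le_mul (Real.sqrt_le_sqrt ?_) (Real.sqrt_le_sqrt ?_) (Real.sqrt_nonneg _) (Real.sqrt_nonneg _)
          · unfold errS; linarith
          · unfold errS; linarith
  linarith

private theorem tot_prime {q : ℕ} (hq : q.Prime) : (Nat.totient q : ℝ) = (q : ℝ) - 1 := by
  rw [Nat.totient_prime hq, Nat.cast_sub hq.one_le, Nat.cast_one]

private theorem err_cell {y z h : ℕ} (hh : 1 ≤ h) (hhy : h ≤ y) {A B : Finset ℕ}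
    (hA : ∀ a ∈ A, ∀ q : ℕ, q.Prime → y < q → Nat.Coprime a q)
    (hB : ∀ a ∈ B, ∀ q : ℕ, q.Prime → y < q → Nat.Coprime a q) :
    ∑ q ∈ Qs y z,
      |(((A ×ˢ B).filter (fun x => q ∣ x.1 * x.2 + h)).card : ℝ) -
        (A.card * B.card : ℕ) * (1 / ((q : ℝ) - 1))| +
    ∑ q ∈ Qs y z, ∑ q' ∈ (Qs y z).erase q,
      |(((A ×ˢ B).filter
          (fun x => q ∣ x.1 * x.2 + h ∧ q' ∣ x.1 * x.2 + h)).card : ℝ) -
        (A.card * B.card : ℕ) * (1 / ((q : ℝ) - 1) * (1 / ((q' : ℝ) - 1)))| ≤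
      2 * (Real.sqrt (errS y z A) * Real.sqrt (errS y z B)) := by
  have hcop : ∀ q : ℕ, q.Prime → y < q → Nat.Coprime h q := by
    intro q hq hyq
    rw [Nat.coprime_comm, Nat.Prime.coprime_iff_not_dvd hq]
    intro hd
    have := Nat.le_of_dvd (by omega) hd
    omega
  refine le_trans (add_le_add ?_ ?_) (err_cs A B)
  · refine Finset.sum_le_sum fun q hq => ?_
    obtain ⟨⟨hyq, -⟩, hqp⟩ := mem_Qs.1 hq
    have h1 := bil hqp.one_lt (hcop q hqp hyq) A B (fun a ha => hA a ha q hqp hyq) fun b hb => hB b hb q hqp hyq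
    rw [tot_prime hqp] at h1
    have e : ((A.card * B.card : ℕ) : ℝ) * (1 / ((q : ℝ) - 1)) = (A.card : ℝ) * B.card / ((q : ℝ) - 1) := by
      push_cast
      ring
    rw [e]
    exact h1
  · refine Finset.sum_le_sum fun q hq => Finset.sum_le_sum fun q' hq' => ?_
    obtain ⟨⟨hyq, -⟩, hqp⟩ := mem_Qs.1 hq
    obtain ⟨hne, hq'⟩ := Finset.mem_erase.1 hq'
    obtain ⟨⟨hyq', -⟩, hqp'⟩ := mem_Qs.1 hq'
    have hc : Nat.Coprime q q' := (Nat.coprime_primes hqp hqp').2 (Ne.symm hne)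
    have hd1 : 1 < q * q' := by
      have := hqp.one_lt
      have := hqp'.one_lt
      nlinarith
    have h1 := bil hd1 (Nat.Coprime.mul_right (hcop q hqp hyq) (hcop q' hqp' hyq')) A B
      (fun a ha => Nat.Coprime.mul_right (hA a ha q hqp hyq) (hA a ha q' hqp' hyq'))
      fun b hb => Nat.Coprime.mul_right (hB b hb q hqp hyq) (hB b hb q' hqp' hyq')
    rw [Nat.totient_mul hc, Nat.cast_mul, tot_prime hqp, tot_prime hqp'] at h1
    have e : ((A.card * B.card : ℕ) : ℝ) * (1 / ((q : ℝ) - 1) * (1 / ((q' : ℝ) - 1))) =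
        (A.card : ℝ) * B.card / (((q : ℝ) - 1) * ((q' : ℝ) - 1)) := by
      push_cast
      rw [div_mul_div_comm, one_mul, mul_one_div]
    have e2 : (A ×ˢ B).filter (fun x => q ∣ x.1 * x.2 + h ∧ q' ∣ x.1 * x.2 + h) =
        (A ×ˢ B).filter (fun x => q * q' ∣ x.1 * x.2 + h) := by
      refine Finset.filter_congr fun x _ => ?_
      constructor
      · rintro ⟨h2, h3⟩
        exact hc.mul_dvd_of_dvd_of_dvd h2 h3
      · intro h2
        exact ⟨(Dvd.intro _ rfl).trans h2, (Dvd.intro_left _ rfl).trans h2⟩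
    rw [e, e2]
    exact h1

private theorem err_sum {ι : Type*} (s : Finset ι) (f g : ι → ℕ) (c : ℝ) :
    |((∑ i ∈ s, f i : ℕ) : ℝ) - ((∑ i ∈ s, g i : ℕ) : ℝ) * c| ≤ ∑ i ∈ s, |(f i : ℝ) - (g i : ℕ) * c| := by
  have e : ((∑ i ∈ s, f i : ℕ) : ℝ) - ((∑ i ∈ s, g i : ℕ) : ℝ) * c = ∑ i ∈ s, ((f i : ℝ) - (g i : ℕ) * c) := by
    rw [Finset.sum_sub_distrib, ← Finset.sum_mul]
    push_cast
    rfl
  rw [e]
  exact Finset.abs_sum_le_sum_abs _ _

/-- conditions on the cell -/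
private theorem err_cond {T y X i a : ℕ} (hT : 1 ≤ T) (hy : 4 * 8 ^ (8 * T + 2) ≤ y)
    (hX : y ^ (12 * T + 3) ≤ X) (ha : a ∈ Ai (y / 4) (8 * T + 2) i) :
    (y ^ T) ^ 4 ≤ 2 ^ (i - 1) ∧ (y ^ T) ^ 4 ≤ X / 2 ^ i := by
  obtain ⟨hi, h1, h2⟩ := Ai_range (by omega) ha
  have ha' : a ∈ Av (y / 4) (8 * T + 2) := (Finset.mem_filter.1 ha).1
  obtain ⟨h3, h4, -⟩ := Av_bound ha'
  have h8 : 1 ≤ 8 ^ (8 * T + 2) := Nat.one_le_pow _ _ (by norm_num)
  have hi2 : 2 ^ i = 2 * 2 ^ (i - 1) := by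
    rw [← pow_succ']
    congr 1
    omega
  have h64 : 64 ≤ 8 ^ (8 * T + 2) := by
    calc 64 = 8 ^ 2 := by norm_num
      _ ≤ 8 ^ (8 * T + 2) := Nat.pow_le_pow_right (by norm_num) (by omega)
  constructor
  · -- squares
    by_contra hlt
    push Not at hlt
    have h5 : (2 ^ i) ^ 2 ≥ (y / 4) ^ (8 * T + 2) := h3.trans (Nat.pow_le_pow_left h2 2)
    have h6 : y ^ (8 * T + 2) ≤ 8 ^ (8 * T + 2) * (y / 4) ^ (8 * T + 2) := by
      rw [← mul_pow]
      refine Nat.pow_le_pow_left ?_ _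
      omega
    have h7 : (2 ^ i) ^ 2 = 4 * (2 ^ (i - 1)) ^ 2 := by
      rw [hi2]
      ring
    have h9 : (2 ^ (i - 1)) ^ 2 < ((y ^ T) ^ 4) ^ 2 := Nat.pow_lt_pow_left hlt (by norm_num)
    have h10 : ((y ^ T) ^ 4) ^ 2 = y ^ (8 * T) := by
      rw [← pow_mul, ← pow_mul]
      congr 1
      ring
    have h11 : y ^ (8 * T + 2) = y ^ (8 * T) * y ^ 2 := pow_add _ _ _
    have hypos : 0 < y ^ (8 * T) := Nat.pos_of_ne_zero (pow_ne_zero _ (by omega))
    have h12 : 4 * 8 ^ (8 * T + 2) ≤ y ^ 2 := hy.trans (by nlinarith)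
    have h13 : y ^ (8 * T + 2) ≤ 8 ^ (8 * T + 2) * (4 * (2 ^ (i - 1)) ^ 2) := by
      rw [← h7]
      exact h6.trans (Nat.mul_le_mul_left _ h5)
    have h14 : 8 ^ (8 * T + 2) * (4 * (2 ^ (i - 1)) ^ 2) < 8 ^ (8 * T + 2) * (4 * y ^ (8 * T)) := by
      rw [h10] at h9
      exact Nat.mul_lt_mul_of_pos_left (Nat.mul_lt_mul_of_pos_left h9 (by norm_num)) (by omega)
    have h15 : y ^ (8 * T) * (4 * 8 ^ (8 * T + 2)) ≤ y ^ (8 * T) * y ^ 2 := Nat.mul_le_mul_left _ h12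
    rw [h11] at h13
    nlinarith
  · rw [Nat.le_div_iff_mul_le (by positivity)]
    have h5 : 2 ^ i ≤ y ^ (8 * T + 2) := by
      have h6 : 2 ^ i ≤ 2 * (y / 4) ^ (8 * T + 2) := by
        rw [hi2]
        exact Nat.mul_le_mul_left _ (h1.le.trans h4)
      have h7 : (4 * (y / 4)) ^ (8 * T + 2) ≤ y ^ (8 * T + 2) := Nat.pow_le_pow_left (by omega) _
      have h9 : 2 ≤ 4 ^ (8 * T + 2) := by
        calc 2 ≤ 4 ^ 1 := by norm_num
          _ ≤ 4 ^ (8 * T + 2) := Nat.pow_le_pow_right (by norm_num) (by omega)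
      rw [mul_pow] at h7
      exact h6.trans ((Nat.mul_le_mul_right _ h9).trans h7)
    calc (y ^ T) ^ 4 * 2 ^ i ≤ (y ^ T) ^ 4 * y ^ (8 * T + 2) := Nat.mul_le_mul_left _ h5
      _ = y ^ (12 * T + 2) := by
        rw [← pow_mul, ← pow_add]
        congr 1
        ring
      _ ≤ y ^ (12 * T + 3) := Nat.pow_le_pow_right (by omega) (by omega)
      _ ≤ X := hX

private theorem err_clog {y r : ℕ} (hy : 4 ≤ y) :
    ((Nat.clog 2 ((y / 4) ^ r) + 1 : ℕ) : ℝ) ≤ (2 + 2 * r) * (1 + Real.log y) := by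
  have hlog : 0 ≤ Real.log y := Real.log_nonneg (by exact_mod_cast (by omega : 1 ≤ y))
  have hr0 : (0 : ℝ) ≤ r := Nat.cast_nonneg r
  rcases Nat.lt_or_ge 1 ((y / 4) ^ r) with h1 | h1
  · have h2 := Nat.pow_pred_clog_lt_self (b := 2) (by norm_num) h1
    have hc := Nat.clog_pos (b := 2) (by norm_num) h1
    set k := Nat.clog 2 ((y / 4) ^ r) with hk
    have h3 : (2 : ℝ) ^ (k - 1) ≤ (y : ℝ) ^ r := by
      have h4 : 2 ^ (k - 1) ≤ y ^ r := by
        have h5 : 2 ^ (k - 1) < (y / 4) ^ r := h2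
        exact h5.le.trans (Nat.pow_le_pow_left (Nat.div_le_self _ _) _)
      exact_mod_cast h4
    have h4 := Real.log_le_log (by positivity) h3
    rw [Real.log_pow, Real.log_pow] at h4
    have h5 : (1 : ℝ) / 2 ≤ Real.log 2 := by
      have := Real.log_two_gt_d9
      linarith
    have h6 : ((k - 1 : ℕ) : ℝ) = (k : ℝ) - 1 := by
      rw [Nat.cast_sub hc, Nat.cast_one]
    rw [h6] at h4
    have h7 : (1 : ℝ) ≤ k := by exact_mod_cast hc
    have h8 : ((k : ℝ) - 1) * (1 / 2) ≤ r * Real.log y := by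
      refine le_trans ?_ h4
      exact mul_le_mul_of_nonneg_left h5 (by linarith)
    push_cast
    nlinarith
  · have h2 : Nat.clog 2 ((y / 4) ^ r) = 0 := Nat.clog_of_right_le_one h1 2
    rw [h2]
    push_cast
    nlinarith

theorem err (T : ℕ) (hT : 1 ≤ T) : ∃ C : ℝ, 0 < C ∧ ∃ y0 : ℕ, ∀ y X h : ℕ, y0 ≤ y →
    y ^ (12 * T + 3) ≤ X → 1 ≤ h → h ≤ y →
    ∑ q ∈ Qs y (y ^ T),
      |(((Pairs (y / 4) (8 * T + 2) X).filter (fun x => q ∣ x.1 * x.2 + h)).card : ℝ) -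
        (Pairs (y / 4) (8 * T + 2) X).card * (1 / ((q : ℝ) - 1))| +
    ∑ q ∈ Qs y (y ^ T), ∑ q' ∈ (Qs y (y ^ T)).erase q,
      |(((Pairs (y / 4) (8 * T + 2) X).filter
          (fun x => q ∣ x.1 * x.2 + h ∧ q' ∣ x.1 * x.2 + h)).card : ℝ) -
        (Pairs (y / 4) (8 * T + 2) X).card * (1 / ((q : ℝ) - 1) * (1 / ((q' : ℝ) - 1)))| ≤
      C * (1 + Real.log y) ^ 3 / y * X := by
  obtain ⟨C, hC, hV⟩ := sumV
  refine ⟨(2 + 2 * (8 * T + 2 : ℕ)) * (C * T ^ 2), by positivity, 4 * 8 ^ (8 * T + 2), ?_⟩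
  intro y X h hy hX hh hhy
  have h8 : 1 ≤ 8 ^ (8 * T + 2) := Nat.one_le_pow _ _ (by norm_num)
  have hy4 : 4 ≤ y := by omega
  set z := y ^ T with hz
  set v := y / 4 with hv
  set r := 8 * T + 2 with hr
  have hyz : y ≤ z := by
    calc y = y ^ 1 := (pow_one y).symm
      _ ≤ y ^ T := Nat.pow_le_pow_right (by omega) hT
  have hy0 : (0 : ℝ) < y := by exact_mod_cast (by omega : 0 < y)
  have hlogy : 0 ≤ Real.log y := Real.log_nonneg (by exact_mod_cast (by omega : 1 ≤ y))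
  have hX0 : (0 : ℝ) ≤ X := Nat.cast_nonneg X
  set I := range (Nat.clog 2 (v ^ r) + 1) with hI
  -- one cell
  have hcell : ∀ i ∈ I, 2 * (Real.sqrt (errS y z (Ai v r i)) * Real.sqrt (errS y z (Bi v X i))) ≤
      C * (1 + Real.log z) ^ 2 / y * X := by
    intro i _
    have hL : 0 ≤ C * (1 + Real.log z) ^ 2 / y := by positivity
    rcases (Ai v r i).eq_empty_or_nonempty with he | ⟨a, ha⟩
    · have h0 : errS y z (Ai v r i) = 0 := by
        rw [he]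
        unfold errS Vd
        simp
      rw [h0, Real.sqrt_zero, zero_mul, mul_zero]
      positivity
    · obtain ⟨c1, c2⟩ := err_cond hT hy hX ha
      obtain ⟨hi, -, -⟩ := Ai_range (show 1 ≤ r by omega) ha
      have hi2 : 2 ^ i = 2 ^ (i - 1) + 2 ^ (i - 1) := by
        rw [← two_mul, ← pow_succ']
        congr 1
        omega
      have sA : Ai v r i ⊆ Ioc (2 ^ (i - 1)) (2 ^ (i - 1) + 2 ^ (i - 1)) := by
        intro b hb
        obtain ⟨-, h1, h2⟩ := Ai_range (show 1 ≤ r by omega) hb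
        rw [Finset.mem_Ioc, ← hi2]
        exact ⟨h1, h2⟩
      have sB : Bi v X i ⊆ Ioc 0 (0 + X / 2 ^ i) := by
        intro b hb
        have h1 := Finset.mem_Icc.1 (Finset.mem_filter.1 hb).1
        rw [Finset.mem_Ioc, zero_add]
        exact ⟨by omega, h1.2⟩
      have kA : (Ai v r i).card ≤ 2 ^ (i - 1) := by
        have := Finset.card_le_card sA
        rwa [Nat.card_Ioc, Nat.add_sub_cancel_left] at this
      have kB : (Bi v X i).card ≤ X / 2 ^ i := by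
        have := Finset.card_le_card sB
        rwa [Nat.card_Ioc, Nat.add_sub_cancel_left] at this
      have vA := hV y z (2 ^ (i - 1)) (2 ^ (i - 1)) (Ai v r i) (by omega) hyz c1 sA
      have vB := hV y z 0 (X / 2 ^ i) (Bi v X i) (by omega) hyz c2 sB
      set m : ℝ := ((2 ^ (i - 1) : ℕ) : ℝ) with hm
      set m' : ℝ := ((X / 2 ^ i : ℕ) : ℝ) with hm'
      have hm0 : 0 ≤ m := Nat.cast_nonneg _
      have hm0' : 0 ≤ m' := Nat.cast_nonneg _
      have kA' : ((Ai v r i).card : ℝ) ≤ m := Nat.cast_le.2 kA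
      have kB' : ((Bi v X i).card : ℝ) ≤ m' := Nat.cast_le.2 kB
      have uA : errS y z (Ai v r i) ≤ C * (1 + Real.log z) ^ 2 / y * m ^ 2 := by
        refine vA.trans ?_
        rw [pow_two m, ← mul_assoc]
        exact mul_le_mul_of_nonneg_left kA' (mul_nonneg hL hm0)
      have uB : errS y z (Bi v X i) ≤ C * (1 + Real.log z) ^ 2 / y * m' ^ 2 := by
        refine vB.trans ?_
        rw [pow_two m', ← mul_assoc]
        exact mul_le_mul_of_nonneg_left kB' (mul_nonneg hL hm0')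
      have hmm : 2 * (m * m') ≤ X := by
        have h1 : 2 * (2 ^ (i - 1) * (X / 2 ^ i)) ≤ X := by
          calc 2 * (2 ^ (i - 1) * (X / 2 ^ i)) = 2 ^ i * (X / 2 ^ i) := by rw [hi2]; ring
            _ ≤ X := Nat.mul_div_le _ _
        have h2 : ((2 * (2 ^ (i - 1) * (X / 2 ^ i)) : ℕ) : ℝ) ≤ X := by exact_mod_cast h1
        rw [hm, hm']
        calc 2 * (((2 ^ (i - 1) : ℕ) : ℝ) * ((X / 2 ^ i : ℕ) : ℝ)) = ((2 * (2 ^ (i - 1) * (X / 2 ^ i)) : ℕ) : ℝ) := by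
              rw [Nat.cast_mul, Nat.cast_mul, Nat.cast_two]
          _ ≤ X := h2
      set L := C * (1 + Real.log z) ^ 2 / y with hLd
      calc 2 * (Real.sqrt (errS y z (Ai v r i)) * Real.sqrt (errS y z (Bi v X i)))
          ≤ 2 * (Real.sqrt (L * m ^ 2) * Real.sqrt (L * m' ^ 2)) := by
            refine mul_le_mul_of_nonneg_left ?_ (by norm_num)
            exact mul_le_mul (Real.sqrt_le_sqrt uA) (Real.sqrt_le_sqrt uB) (Real.sqrt_nonneg _) (Real.sqrt_nonneg _)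
        _ = L * (2 * (m * m')) := by
            rw [Real.sqrt_mul hL, Real.sqrt_mul hL, Real.sqrt_sq hm0, Real.sqrt_sq hm0']
            have := Real.mul_self_sqrt hL
            calc 2 * (Real.sqrt L * m * (Real.sqrt L * m')) = (Real.sqrt L * Real.sqrt L) * (2 * (m * m')) := by ring
              _ = L * (2 * (m * m')) := by rw [this]
        _ ≤ L * X := mul_le_mul_of_nonneg_left hmm hL
  -- all cells
  have hcop : ∀ i ∈ I, ∑ q ∈ Qs y z,
      |(((Ai v r i ×ˢ Bi v X i).filter (fun x => q ∣ x.1 * x.2 + h)).card : ℝ) -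
        ((Ai v r i).card * (Bi v X i).card : ℕ) * (1 / ((q : ℝ) - 1))| +
      ∑ q ∈ Qs y z, ∑ q' ∈ (Qs y z).erase q,
        |(((Ai v r i ×ˢ Bi v X i).filter
          (fun x => q ∣ x.1 * x.2 + h ∧ q' ∣ x.1 * x.2 + h)).card : ℝ) -
        ((Ai v r i).card * (Bi v X i).card : ℕ) * (1 / ((q : ℝ) - 1) * (1 / ((q' : ℝ) - 1)))| ≤
      C * (1 + Real.log z) ^ 2 / y * X := by
    intro i hi
    refine le_trans (err_cell hh hhy ?_ ?_) (hcell i hi)
    · intro a ha q hq hyq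
      exact Ai_coprime ha hq (by omega)
    · intro a ha q hq hyq
      exact Bi_coprime ha hq (by omega)
  have hsum : ∑ q ∈ Qs y z,
      |(((Pairs v r X).filter (fun x => q ∣ x.1 * x.2 + h)).card : ℝ) -
        (Pairs v r X).card * (1 / ((q : ℝ) - 1))| +
    ∑ q ∈ Qs y z, ∑ q' ∈ (Qs y z).erase q,
      |(((Pairs v r X).filter
          (fun x => q ∣ x.1 * x.2 + h ∧ q' ∣ x.1 * x.2 + h)).card : ℝ) -
        (Pairs v r X).card * (1 / ((q : ℝ) - 1) * (1 / ((q' : ℝ) - 1)))| ≤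
      ∑ i ∈ I, C * (1 + Real.log z) ^ 2 / y * X := by
    refine le_trans ?_ (Finset.sum_le_sum hcop)
    rw [Finset.sum_add_distrib]
    refine add_le_add ?_ ?_
    · rw [Finset.sum_comm]
      refine Finset.sum_le_sum fun q _ => ?_
      rw [card_Pairs_filter, card_Pairs]
      exact err_sum _ _ _ _
    · rw [Finset.sum_comm]
      refine Finset.sum_le_sum fun q _ => ?_
      rw [Finset.sum_comm]
      refine Finset.sum_le_sum fun q' _ => ?_
      rw [card_Pairs_filter, card_Pairs]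
      exact err_sum _ _ _ _
  refine hsum.trans ?_
  rw [Finset.sum_const, hI, Finset.card_range, nsmul_eq_mul]
  have h1 := err_clog (y := y) (r := r) hy4
  have hlz : Real.log z = T * Real.log y := by
    rw [hz, Nat.cast_pow, Real.log_pow]
  have hT1 : (1 : ℝ) ≤ T := by exact_mod_cast hT
  have h2 : (1 + Real.log z) ^ 2 ≤ T ^ 2 * (1 + Real.log y) ^ 2 := by
    rw [hlz, ← mul_pow]
    refine pow_le_pow_left₀ (by positivity) ?_ 2
    nlinarith
  have h3 : C * (1 + Real.log z) ^ 2 / y * X ≤ C * (T ^ 2 * (1 + Real.log y) ^ 2) / y * X := by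
    gcongr
  have h4 : 0 ≤ C * (1 + Real.log z) ^ 2 / y * X := by positivity
  calc ((Nat.clog 2 (v ^ r) + 1 : ℕ) : ℝ) * (C * (1 + Real.log z) ^ 2 / y * X)
      ≤ ((2 + 2 * r) * (1 + Real.log y)) * (C * (T ^ 2 * (1 + Real.log y) ^ 2) / y * X) := by
        refine mul_le_mul h1 h3 h4 (by positivity)
    _ = (2 + 2 * (r : ℝ)) * (C * T ^ 2) * (1 + Real.log y) ^ 3 / y * X := by ring

end Pool.Agent.TNY
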