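import Pool.Agent.TNY.Cell

/-!
# TNY/Lo: there are many pairs (difficulty 3)

`card_Pairs`: `(Pairs v r X).card = ∑_{a ∈ Av v r} (Bi v X (clog 2 a)).card` (every `a ∈ Av v r` is in exactly one cell; `clog 2 a ≤ clog 2 (v ^ r)`).
`(Bi v X i).card = psi (X / 2 ^ i) (Nat.sqrt v)` (`TN/Scale.lean`); `psi_ge (4 k)`: `c0`, `z0` with `c0 x ≤ psi x w` for `w ≥ z0`, `x ≥ 1`, `x ^ 2 ≤ w ^ (4 k + 2)`:
here `w = Nat.sqrt v`, `x = X / 2 ^ i ≤ X ≤ v ^ k ≤ (w + 1) ^ (2 k) ≤ w ^ (4 k)/..` (for large `w`: `(w + 1) ^ 2 ≤ w ^ 3`, so `x ^ 2 ≤ v ^ (2 k) < (w + 1) ^ (4 k)`; use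
`psi_ge` with a larger `k` if convenient, for example `x ^ 2 ≤ w ^ (8 k + 2)`).  `2 ^ clog 2 a ≤ 2 a` (`a ≥ 1`), `2 a ≤ 2 v ^ r ≤ X / 2` for large `v`, so
`X / 2 ^ i ≥ X / (2 a) - 1 ≥ X / (4 a)`.  So the number is at least `(c0 X / 4) ∑_{a ∈ Av v r} 1 / a`, and
`∑_{a ∈ Av v r} 1 / a ≥ r ^ (-r) ∑_f ∏ 1 / f i = r ^ (-r) (∑_{q ∈ Pv v} 1 / q) ^ r ≥ r ^ (-r) (1 / 16) ^ r`:
each `a` is the product of at most `r ^ r` functions `f : Fin r → Pv v` (`fibre_card`; copy `exc_fibre` from `Pool/Agent/PowF/Exc.lean`, in the header of this file's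
proof below), `Finset.prod_univ_sum` / `Finset.sum_pow'`, and `TN.sum_inv_primes_ge`.
For `r = 0` the statement also holds (`Av v 0 = {1}`).
-/

namespace Pool.Agent.TNY

open Pool.Agent.TN Finset

/-- the number of `k`-tuples of primes with given product -/
theorem fibre_card (P : Finset ℕ) (hP : ∀ q ∈ P, q.Prime) (k n : ℕ) :
    ((Fintype.piFinset (fun _ : Fin k => P)).filter (fun f => ∏ i, f i = n)).card ≤ k ^ k := by
  classical
  rcases Finset.eq_empty_or_nonempty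
    ((Fintype.piFinset (fun _ : Fin k => P)).filter (fun f => ∏ i, f i = n)) with h0 | ⟨g, hg⟩
  · rw [h0]; simp
  rw [Finset.mem_filter, Fintype.mem_piFinset] at hg
  have hn0 : n ≠ 0 := by
    rw [← hg.2]
    exact Finset.prod_ne_zero_iff.mpr fun i _ => (hP _ (hg.1 i)).ne_zero
  have hsub : (Fintype.piFinset (fun _ : Fin k => P)).filter (fun f => ∏ i, f i = n) ⊆
      Fintype.piFinset (fun _ : Fin k => Finset.univ.image g) := by
    intro f hf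
    rw [Finset.mem_filter, Fintype.mem_piFinset] at hf
    rw [Fintype.mem_piFinset]
    intro i
    have h1 : f i ∣ ∏ j, g j := by
      rw [hg.2, ← hf.2]
      exact Finset.dvd_prod_of_mem f (Finset.mem_univ i)
    obtain ⟨j, _, hj⟩ := (Prime.dvd_finsetProd_iff (hP _ (hf.1 i)).prime g).mp h1
    rw [Finset.mem_image]
    exact ⟨j, Finset.mem_univ _, ((Nat.prime_dvd_prime_iff_eq (hP _ (hf.1 i)) (hP _ (hg.1 j))).mp
      hj).symm⟩
  refine (Finset.card_le_card hsub).trans ?_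
  rw [Fintype.card_piFinset, Finset.prod_const, Finset.card_univ, Fintype.card_fin]
  refine Nat.pow_le_pow_left ?_ k
  refine Finset.card_image_le.trans ?_
  rw [Finset.card_univ, Fintype.card_fin]

private lemma lo_recip (v r : ℕ) : (∑ q ∈ Pv v, (1 : ℝ) / q) ^ r ≤ (r : ℝ) ^ r * ∑ a ∈ Av v r, (1 : ℝ) / a := by
  classical
  have h1 : (∑ q ∈ Pv v, (1 : ℝ) / q) ^ r =
      ∑ f ∈ Fintype.piFinset (fun _ : Fin r => Pv v), ∏ i, (1 : ℝ) / (f i : ℝ) := by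
    rw [← Finset.prod_univ_sum (fun _ : Fin r => Pv v) (fun _ q => (1 : ℝ) / (q : ℝ)), Finset.prod_const,
      Finset.card_univ, Fintype.card_fin]
  have h0 : ∀ f ∈ Fintype.piFinset (fun _ : Fin r => Pv v), (fun f : Fin r → ℕ => ∏ i, f i) f ∈ Av v r :=
    fun f hf => Finset.mem_image_of_mem (fun f : Fin r → ℕ => ∏ i, f i) hf
  rw [h1, ← Finset.sum_fiberwise_of_maps_to h0, Finset.mul_sum]
  refine Finset.sum_le_sum fun a _ => ?_
  have h2 : ∀ f ∈ (Fintype.piFinset (fun _ : Fin r => Pv v)).filter (fun f => ∏ i, f i = a),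
      ∏ i, (1 : ℝ) / (f i : ℝ) = 1 / a := by
    intro f hf
    have h3 := (Finset.mem_filter.mp hf).2
    rw [← h3]
    push_cast
    rw [Finset.prod_div_distrib, Finset.prod_const_one]
  rw [Finset.sum_congr rfl h2, Finset.sum_const, nsmul_eq_mul]
  refine mul_le_mul_of_nonneg_right ?_ (by positivity)
  have h4 := fibre_card (Pv v) (fun q hq => (mem_Pv.mp hq).1.2) r a
  exact_mod_cast h4

private lemma lo_card (v r X : ℕ) : ((Pairs v r X).card : ℝ) =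
    ∑ a ∈ Av v r, (psi (X / 2 ^ Nat.clog 2 a) (Nat.sqrt v) : ℝ) := by
  classical
  rw [card_Pairs]
  push_cast
  rw [← Finset.sum_fiberwise_of_maps_to (s := Av v r) (t := range (Nat.clog 2 (v ^ r) + 1)) (g := fun a => Nat.clog 2 a)
    (fun a ha => by
      rw [Finset.mem_range]
      have h1 := Nat.clog_mono_right 2 (Av_bound ha).2.1
      omega)]
  refine Finset.sum_congr rfl fun i _ => ?_
  have h2 : ∀ a ∈ (Av v r).filter (fun a => Nat.clog 2 a = i),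
      (psi (X / 2 ^ Nat.clog 2 a) (Nat.sqrt v) : ℝ) = ((Bi v X i).card : ℝ) := by
    intro a ha
    rw [(Finset.mem_filter.mp ha).2]
    rfl
  rw [Finset.sum_congr rfl h2, Finset.sum_const, nsmul_eq_mul]
  rfl

private lemma lo_clog {a : ℕ} (ha : 1 ≤ a) : 2 ^ Nat.clog 2 a ≤ 2 * a := by
  rcases Nat.lt_or_ge 1 a with h1 | h1
  · have h2 := Nat.pow_pred_clog_lt_self (b := 2) (by norm_num) h1
    have h3 : 0 < Nat.clog 2 a := Nat.clog_pos (by norm_num) h1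
    have h4 : 2 ^ Nat.clog 2 a = 2 * 2 ^ (Nat.clog 2 a).pred := by
      conv_lhs => rw [← Nat.succ_pred_eq_of_pos h3]
      rw [pow_succ]
      ring
    omega
  · have h2 : a = 1 := by omega
    rw [h2]
    simp

theorem pairs_lower (r k : ℕ) : ∃ c : ℝ, 0 < c ∧ ∃ v0 : ℕ, ∀ v X : ℕ, v0 ≤ v →
    v ^ (r + 1) ≤ X → X ≤ v ^ k → c * X ≤ (Pairs v r X).card := by
  obtain ⟨c0, hc0, z0, hz0⟩ := psi_ge (8 * k)
  have hrr : (0 : ℝ) < (r : ℝ) ^ r := by exact_mod_cast Nat.pow_self_pos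
  refine ⟨c0 / 4 * (((r : ℝ) ^ r)⁻¹ * (1 / 16) ^ r), by positivity,
    max (max ((z0 + 2) * (z0 + 2)) 4) ⌈Real.exp 32⌉₊, ?_⟩
  intro v X hv hX1 hX2
  have hv1 : (z0 + 2) * (z0 + 2) ≤ v := ((le_max_left _ _).trans (le_max_left _ _)).trans hv
  have hv2 : 4 ≤ v := ((le_max_right _ _).trans (le_max_left _ _)).trans hv
  have hv3 : Real.exp 32 ≤ v := (Nat.le_ceil _).trans (by exact_mod_cast (le_max_right _ _).trans hv)
  have hvpos : (0 : ℝ) < v := (Real.exp_pos _).trans_le hv3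
  have hvlog : 32 ≤ Real.log v := (Real.le_log_iff_exp_le hvpos).mpr hv3
  have hw : z0 + 2 ≤ Nat.sqrt v := Nat.le_sqrt.mpr hv1
  have hwv : v ≤ (Nat.sqrt v) ^ 4 := by
    have h1 := Nat.lt_succ_sqrt v
    have h2 : Nat.sqrt v + 1 ≤ (Nat.sqrt v) ^ 2 := by nlinarith
    calc v ≤ (Nat.sqrt v + 1) * (Nat.sqrt v + 1) := h1.le
      _ ≤ (Nat.sqrt v) ^ 2 * (Nat.sqrt v) ^ 2 := Nat.mul_le_mul h2 h2
      _ = _ := by ring
  have hsum : (1 / 16 : ℝ) ^ r ≤ (r : ℝ) ^ r * ∑ a ∈ Av v r, (1 : ℝ) / a := by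
    refine le_trans ?_ (lo_recip v r)
    exact pow_le_pow_left₀ (by norm_num) (sum_inv_primes_ge v hvlog) r
  have hterm : ∀ a ∈ Av v r, c0 / 4 * X * ((1 : ℝ) / a) ≤ (psi (X / 2 ^ Nat.clog 2 a) (Nat.sqrt v) : ℝ) := by
    intro a ha
    obtain ⟨_, ha1, ha2⟩ := Av_bound ha
    have hc := lo_clog ha2
    have hX3 : 2 * 2 ^ Nat.clog 2 a ≤ X := by
      calc 2 * 2 ^ Nat.clog 2 a ≤ 4 * a := by omega
        _ ≤ v * v ^ r := Nat.mul_le_mul hv2 ha1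
        _ = v ^ (r + 1) := by ring
        _ ≤ X := hX1
    have hpos : 0 < 2 ^ Nat.clog 2 a := by positivity
    have hx2 : 2 ≤ X / 2 ^ Nat.clog 2 a := (Nat.le_div_iff_mul_le hpos).mpr hX3
    have hx3 : (X / 2 ^ Nat.clog 2 a) ^ 2 ≤ (Nat.sqrt v) ^ (8 * k + 2) := by
      calc (X / 2 ^ Nat.clog 2 a) ^ 2 ≤ X ^ 2 := Nat.pow_le_pow_left (Nat.div_le_self _ _) 2
        _ ≤ (v ^ k) ^ 2 := Nat.pow_le_pow_left hX2 2
        _ ≤ (((Nat.sqrt v) ^ 4) ^ k) ^ 2 := Nat.pow_le_pow_left (Nat.pow_le_pow_left hwv k) 2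
        _ = (Nat.sqrt v) ^ (8 * k) := by rw [← pow_mul, ← pow_mul]; congr 1; ring
        _ ≤ _ := Nat.pow_le_pow_right (by omega) (by omega)
    have h4 := hz0 (Nat.sqrt v) (X / 2 ^ Nat.clog 2 a) (by omega) (by omega) hx3
    refine le_trans ?_ h4
    have ha0 : (0 : ℝ) < a := by exact_mod_cast ha2
    have h5 : (X : ℝ) * (1 / a) / 4 ≤ ((X / 2 ^ Nat.clog 2 a : ℕ) : ℝ) := by
      have h6 : X < (X / 2 ^ Nat.clog 2 a + 1) * 2 ^ Nat.clog 2 a := Nat.lt_mul_of_div_lt (Nat.lt_succ_self _) hpos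
      have h7 : X ≤ 4 * a * (X / 2 ^ Nat.clog 2 a) := by
        have h8 : (X / 2 ^ Nat.clog 2 a + 1) * 2 ^ Nat.clog 2 a ≤ (2 * (X / 2 ^ Nat.clog 2 a)) * (2 * a) :=
          Nat.mul_le_mul (by omega) hc
        calc X ≤ (2 * (X / 2 ^ Nat.clog 2 a)) * (2 * a) := by omega
          _ = _ := by ring
      have h9 : (X : ℝ) ≤ 4 * a * ((X / 2 ^ Nat.clog 2 a : ℕ) : ℝ) := by exact_mod_cast h7
      rw [mul_one_div, div_div, div_le_iff₀ (by positivity)]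
      linarith
    calc c0 / 4 * X * ((1 : ℝ) / a) = c0 * ((X : ℝ) * (1 / a) / 4) := by ring
      _ ≤ _ := mul_le_mul_of_nonneg_left h5 hc0.le
  rw [lo_card]
  calc c0 / 4 * (((r : ℝ) ^ r)⁻¹ * (1 / 16) ^ r) * X
      ≤ c0 / 4 * (((r : ℝ) ^ r)⁻¹ * ((r : ℝ) ^ r * ∑ a ∈ Av v r, (1 : ℝ) / a)) * X := by
        gcongr
    _ = ∑ a ∈ Av v r, c0 / 4 * X * ((1 : ℝ) / a) := by
        rw [inv_mul_cancel_left₀ hrr.ne', Finset.mul_sum, Finset.sum_mul]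
        refine Finset.sum_congr rfl fun a _ => ?_
        ring
    _ ≤ _ := Finset.sum_le_sum hterm

end Pool.Agent.TNY
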