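import Pool.Agent.TNY.Defs

/-!
# TNY/Mu: sums over the primes in `(y, z]` (difficulty 2)

* `mu_lower`: induction on `s`: `Qs y (y ^ (2 ^ (s + 1)))` contains the disjoint union of `Qs y (y ^ (2 ^ s))` and of the primes `q ≤ w`, `w < q ^ 2`, `w = y ^ (2 ^ (s + 1))`
  (`TN.sum_inv_primes_ge`: their sum of inverses is at least `1 / 16` for `log w ≥ 32`).
* `mu_upper`: `1 / (q - 1)` for the `q ∈ Qs y z`: `q - 1` runs through different numbers in `Icc 1 z`; harmonic sum `≤ 1 + log z`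
  (`harmonic_le_one_add_log`).
-/

namespace Pool.Agent.TNY

open Pool.Agent.TN Finset

theorem mu_nonneg {y z q : ℕ} (hq : q ∈ Qs y z) : (0 : ℝ) ≤ 1 / ((q : ℝ) - 1) := by
  have h2 : (2 : ℝ) ≤ q := by exact_mod_cast (mem_Qs.mp hq).2.two_le
  apply div_nonneg zero_le_one
  linarith

theorem mu_lower (s : ℕ) : ∃ y0 : ℕ, ∀ y : ℕ, y0 ≤ y →
    (s : ℝ) / 16 ≤ ∑ q ∈ Qs y (y ^ (2 ^ s)), (1 : ℝ) / ((q : ℝ) - 1) := by
  refine ⟨⌈Real.exp 32⌉₊, fun y hy => ?_⟩
  have hyR : Real.exp 32 ≤ (y : ℝ) := (Nat.le_ceil _).trans (by exact_mod_cast hy)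
  have hy1 : (1 : ℝ) ≤ y := (Real.one_le_exp (by norm_num)).trans hyR
  have hy1' : 1 ≤ y := by exact_mod_cast hy1
  have hlog : 32 ≤ Real.log y := by
    rw [Real.le_log_iff_exp_le (by linarith)]
    exact hyR
  induction s with
  | zero =>
    simp only [Nat.cast_zero, zero_div]
    exact Finset.sum_nonneg fun q hq => mu_nonneg hq
  | succ s ih =>
    have hw : (y ^ (2 ^ (s + 1)) : ℕ) = y ^ (2 ^ s) * y ^ (2 ^ s) := by
      rw [← pow_add]
      congr 1
      rw [pow_succ]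
      ring
    have hyp : y ≤ y ^ (2 ^ s) := by
      calc y = y ^ 1 := (pow_one y).symm
        _ ≤ y ^ (2 ^ s) := Nat.pow_le_pow_right hy1' Nat.one_le_two_pow
    have hpos : 0 < y ^ (2 ^ s) := by positivity
    have hlogw : 32 ≤ Real.log ((y ^ (2 ^ (s + 1)) : ℕ) : ℝ) := by
      push_cast
      rw [Real.log_pow]
      have h1 : (1 : ℝ) ≤ ((2 ^ (s + 1) : ℕ) : ℝ) := by exact_mod_cast Nat.one_le_two_pow
      nlinarith
    have h3 := sum_inv_primes_ge (y ^ (2 ^ (s + 1))) hlogw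
    have hdisj : Disjoint (Qs y (y ^ (2 ^ s)))
        ((Nat.primesLE (y ^ (2 ^ (s + 1)))).filter (fun q => y ^ (2 ^ (s + 1)) < q * q)) := by
      rw [Finset.disjoint_left]
      intro q hq hq'
      rw [Finset.mem_filter] at hq'
      have h4 := (mem_Qs.mp hq).1.2
      have h5 := Nat.mul_le_mul h4 h4
      rw [← hw] at h5
      exact absurd hq'.2 (not_lt.mpr h5)
    have hsub : Qs y (y ^ (2 ^ s)) ∪
        ((Nat.primesLE (y ^ (2 ^ (s + 1)))).filter (fun q => y ^ (2 ^ (s + 1)) < q * q)) ⊆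
        Qs y (y ^ (2 ^ (s + 1))) := by
      intro q hq
      rw [Finset.mem_union] at hq
      rw [mem_Qs]
      rcases hq with hq | hq
      · obtain ⟨⟨h4, h5⟩, h6⟩ := mem_Qs.mp hq
        refine ⟨⟨h4, h5.trans ?_⟩, h6⟩
        rw [hw]
        exact Nat.le_mul_of_pos_right _ hpos
      · rw [Finset.mem_filter, Nat.mem_primesLE] at hq
        refine ⟨⟨?_, hq.1.1⟩, hq.1.2⟩
        by_contra hle
        have h4 : q ≤ y ^ (2 ^ s) := (not_lt.mp hle).trans hyp
        have h5 := Nat.mul_le_mul h4 h4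
        rw [← hw] at h5
        exact absurd hq.2 (not_lt.mpr h5)
    have h7 := Finset.sum_le_sum_of_subset_of_nonneg (f := fun q : ℕ => (1 : ℝ) / ((q : ℝ) - 1)) hsub
      (fun q hq _ => mu_nonneg hq)
    rw [Finset.sum_union hdisj] at h7
    have h8 : ∑ q ∈ (Nat.primesLE (y ^ (2 ^ (s + 1)))).filter (fun q => y ^ (2 ^ (s + 1)) < q * q), (1 : ℝ) / q ≤
        ∑ q ∈ (Nat.primesLE (y ^ (2 ^ (s + 1)))).filter (fun q => y ^ (2 ^ (s + 1)) < q * q),
          (1 : ℝ) / ((q : ℝ) - 1) := by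
      apply Finset.sum_le_sum
      intro q hq
      rw [Finset.mem_filter, Nat.mem_primesLE] at hq
      have h2 : (2 : ℝ) ≤ q := by exact_mod_cast hq.1.2.two_le
      apply div_le_div_of_nonneg_left zero_le_one (by linarith) (by linarith)
    push_cast
    linarith

theorem mu_upper (y z : ℕ) (hy : 1 ≤ y) (hz : 1 ≤ z) :
    ∑ q ∈ Qs y z, (1 : ℝ) / ((q : ℝ) - 1) ≤ 1 + Real.log z := by
  have hinj : Set.InjOn (fun q : ℕ => q - 2) (Qs y z : Set ℕ) := by
    intro q hq q' hq' he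
    have h2 := (mem_Qs.mp hq).2.two_le
    have h2' := (mem_Qs.mp hq').2.two_le
    have he' : q - 2 = q' - 2 := he
    omega
  have h1 : ∑ q ∈ Qs y z, (1 : ℝ) / ((q : ℝ) - 1) =
      ∑ i ∈ (Qs y z).image (fun q : ℕ => (q - 2 : ℕ)), (1 : ℝ) / ((i : ℝ) + 1) := by
    rw [Finset.sum_image hinj]
    apply Finset.sum_congr rfl
    intro q hq
    have h2 := (mem_Qs.mp hq).2.two_le
    rw [Nat.cast_sub h2]
    push_cast
    congr 1
    ring
  have hsub : (Qs y z).image (fun q : ℕ => (q - 2 : ℕ)) ⊆ range z := by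
    intro i hi
    rw [Finset.mem_image] at hi
    obtain ⟨q, hq, rfl⟩ := hi
    have h2 := (mem_Qs.mp hq).2.two_le
    have h3 := (mem_Qs.mp hq).1.2
    rw [Finset.mem_range]
    omega
  have h4 : ∑ i ∈ (Qs y z).image (fun q : ℕ => (q - 2 : ℕ)), (1 : ℝ) / ((i : ℝ) + 1) ≤
      ∑ i ∈ range z, (1 : ℝ) / ((i : ℝ) + 1) :=
    Finset.sum_le_sum_of_subset_of_nonneg hsub (fun i _ _ => by positivity)
  have h5 : ∑ i ∈ range z, (1 : ℝ) / ((i : ℝ) + 1) = ((harmonic z : ℚ) : ℝ) := by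
    unfold harmonic
    push_cast
    apply Finset.sum_congr rfl
    intro i _
    rw [one_div]
  rw [h1]
  exact (h4.trans h5.le).trans (harmonic_le_one_add_log z)

end Pool.Agent.TNY
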