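import Pool.Agent.TNY.Defs

/-!
# TNY/Tk: Turan-Kubilius (difficulty 2)

Let `μ = ∑ g`, `ω x` = number of `q ∈ Q` with `q ∣ x.1 x.2 + h`.  `∑ x ∈ S, (ω x - μ) ^ 2 = ∑ ω ^ 2 - 2 μ ∑ ω + μ ^ 2 S.card`, with
`∑ ω = ∑ q, N q`, `∑ ω ^ 2 = ∑ q, N q + ∑ q, ∑ q' ≠ q, N (q, q')` (the counts of `h1`, `h2`).  By `h1`, `h2` and `∑_{q ≠ q'} g q g q' ≤ μ ^ 2`:
`∑ (ω - μ) ^ 2 ≤ μ S.card + (1 + 2 μ) E1 + E2`.  The `x` with `ω x = 0` contribute `μ ^ 2` each.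
-/

namespace Pool.Agent.TNY

open Pool.Agent.TN Finset

theorem tk (S : Finset (ℕ × ℕ)) (h : ℕ) (Q : Finset ℕ) (g : ℕ → ℝ) (hg : ∀ q ∈ Q, 0 ≤ g q)
    (E1 E2 : ℝ)
    (h1 : ∑ q ∈ Q, |((S.filter (fun x => q ∣ x.1 * x.2 + h)).card : ℝ) - S.card * g q| ≤ E1)
    (h2 : ∑ q ∈ Q, ∑ q' ∈ Q.erase q,
      |((S.filter (fun x => q ∣ x.1 * x.2 + h ∧ q' ∣ x.1 * x.2 + h)).card : ℝ) -
        S.card * (g q * g q')| ≤ E2) :
    ((S.filter (fun x => ∀ q ∈ Q, ¬ q ∣ x.1 * x.2 + h)).card : ℝ) * (∑ q ∈ Q, g q) ^ 2 ≤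
      (∑ q ∈ Q, g q) * S.card + (1 + 2 * ∑ q ∈ Q, g q) * E1 + E2 := by
  classical
  set μ : ℝ := ∑ q ∈ Q, g q with hμ
  have hμ0 : 0 ≤ μ := Finset.sum_nonneg hg
  set N : ℝ := (S.card : ℝ) with hN
  have hN0 : 0 ≤ N := Nat.cast_nonneg _
  let χ : ℕ → ℕ × ℕ → ℝ := fun q x => if q ∣ x.1 * x.2 + h then 1 else 0
  let ω : ℕ × ℕ → ℝ := fun x => ∑ q ∈ Q, χ q x
  have hc : ∀ q, ((S.filter (fun x => q ∣ x.1 * x.2 + h)).card : ℝ) = ∑ x ∈ S, χ q x := by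
    intro q
    rw [Finset.card_filter, Nat.cast_sum]
    refine Finset.sum_congr rfl fun x _ => ?_
    change ((if q ∣ x.1 * x.2 + h then 1 else 0 : ℕ) : ℝ) = if q ∣ x.1 * x.2 + h then 1 else 0
    split_ifs <;> simp
  have hc2 : ∀ q q', ((S.filter (fun x => q ∣ x.1 * x.2 + h ∧ q' ∣ x.1 * x.2 + h)).card : ℝ) =
      ∑ x ∈ S, χ q x * χ q' x := by
    intro q q'
    rw [Finset.card_filter, Nat.cast_sum]
    refine Finset.sum_congr rfl fun x _ => ?_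
    change ((if q ∣ x.1 * x.2 + h ∧ q' ∣ x.1 * x.2 + h then 1 else 0 : ℕ) : ℝ) =
      (if q ∣ x.1 * x.2 + h then 1 else 0) * if q' ∣ x.1 * x.2 + h then 1 else 0
    by_cases h3 : q ∣ x.1 * x.2 + h <;> by_cases h4 : q' ∣ x.1 * x.2 + h <;> simp [h3, h4]
  have hω : ∑ x ∈ S, ω x = ∑ q ∈ Q, ∑ x ∈ S, χ q x := Finset.sum_comm
  have hω2 : ∑ x ∈ S, ω x ^ 2 = ∑ q ∈ Q, (∑ x ∈ S, χ q x + ∑ q' ∈ Q.erase q, ∑ x ∈ S, χ q x * χ q' x) := by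
    have e1 : ∀ x, ω x ^ 2 = ∑ q ∈ Q, (χ q x + ∑ q' ∈ Q.erase q, χ q x * χ q' x) := by
      intro x
      have e2 : ω x ^ 2 = ∑ q ∈ Q, ∑ q' ∈ Q, χ q x * χ q' x := by
        rw [sq, Finset.sum_mul_sum]
      rw [e2]
      refine Finset.sum_congr rfl fun q hq => ?_
      rw [← Finset.add_sum_erase Q (fun q' => χ q x * χ q' x) hq]
      congr 1
      change (if q ∣ x.1 * x.2 + h then (1 : ℝ) else 0) * (if q ∣ x.1 * x.2 + h then 1 else 0) =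
        if q ∣ x.1 * x.2 + h then 1 else 0
      split_ifs <;> simp
    rw [Finset.sum_congr rfl fun x _ => e1 x, Finset.sum_comm]
    refine Finset.sum_congr rfl fun q _ => ?_
    rw [Finset.sum_add_distrib]
    congr 1
    exact Finset.sum_comm
  have hsq : ∑ x ∈ S, (ω x - μ) ^ 2 = ∑ x ∈ S, ω x ^ 2 - 2 * μ * ∑ x ∈ S, ω x + μ ^ 2 * N := by
    have e1 : ∀ x ∈ S, (ω x - μ) ^ 2 = ω x ^ 2 - 2 * μ * ω x + μ ^ 2 := fun x _ => by ring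
    rw [Finset.sum_congr rfl e1, Finset.sum_add_distrib, Finset.sum_sub_distrib, ← Finset.mul_sum,
      Finset.sum_const, nsmul_eq_mul]
    ring
  have hlow : ((S.filter (fun x => ∀ q ∈ Q, ¬ q ∣ x.1 * x.2 + h)).card : ℝ) * μ ^ 2 ≤ ∑ x ∈ S, (ω x - μ) ^ 2 := by
    rw [← nsmul_eq_mul, ← Finset.sum_const]
    refine le_trans (Finset.sum_le_sum fun x hx => ?_)
      (Finset.sum_le_sum_of_subset_of_nonneg (Finset.filter_subset _ _) fun x _ _ => sq_nonneg (ω x - μ))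
    have hx' := (Finset.mem_filter.1 hx).2
    have e1 : ω x = 0 := by
      refine Finset.sum_eq_zero fun q hq => ?_
      exact if_neg (hx' q hq)
    rw [e1, zero_sub, neg_sq]
  have hu : |∑ q ∈ Q, ∑ x ∈ S, χ q x - N * μ| ≤ E1 := by
    refine le_trans ?_ h1
    rw [hμ, Finset.mul_sum, ← Finset.sum_sub_distrib]
    refine (Finset.abs_sum_le_sum_abs _ _).trans (le_of_eq ?_)
    refine Finset.sum_congr rfl fun q _ => ?_
    rw [hc q]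
  have hu2 : ∑ q ∈ Q, ∑ q' ∈ Q.erase q, ∑ x ∈ S, χ q x * χ q' x ≤ N * μ ^ 2 + E2 := by
    have e1 : ∑ q ∈ Q, ∑ q' ∈ Q.erase q, ∑ x ∈ S, χ q x * χ q' x ≤
        ∑ q ∈ Q, ∑ q' ∈ Q.erase q, (|((S.filter (fun x => q ∣ x.1 * x.2 + h ∧ q' ∣ x.1 * x.2 + h)).card : ℝ) -
        S.card * (g q * g q')| + N * (g q * g q')) := by
      refine Finset.sum_le_sum fun q _ => Finset.sum_le_sum fun q' _ => ?_
      rw [hc2 q q']
      have := le_abs_self (∑ x ∈ S, χ q x * χ q' x - (S.card : ℝ) * (g q * g q'))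
      rw [← hN] at this ⊢
      linarith
    have e2 : ∑ q ∈ Q, ∑ q' ∈ Q.erase q, N * (g q * g q') ≤ N * μ ^ 2 := by
      have e3 : N * μ ^ 2 = ∑ q ∈ Q, ∑ q' ∈ Q, N * (g q * g q') := by
        rw [sq, hμ, Finset.sum_mul_sum, Finset.mul_sum]
        exact Finset.sum_congr rfl fun q _ => Finset.mul_sum _ _ _
      rw [e3]
      refine Finset.sum_le_sum fun q hq => Finset.sum_le_sum_of_subset_of_nonneg (Finset.erase_subset _ _)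
        fun q' hq' _ => mul_nonneg hN0 (mul_nonneg (hg q hq) (hg q' hq'))
    have e3 : ∑ q ∈ Q, ∑ q' ∈ Q.erase q, (|((S.filter (fun x => q ∣ x.1 * x.2 + h ∧ q' ∣ x.1 * x.2 + h)).card : ℝ) -
        S.card * (g q * g q')| + N * (g q * g q')) =
        ∑ q ∈ Q, ∑ q' ∈ Q.erase q, |((S.filter (fun x => q ∣ x.1 * x.2 + h ∧ q' ∣ x.1 * x.2 + h)).card : ℝ) -
        S.card * (g q * g q')| + ∑ q ∈ Q, ∑ q' ∈ Q.erase q, N * (g q * g q') := by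
      rw [← Finset.sum_add_distrib]
      exact Finset.sum_congr rfl fun q _ => Finset.sum_add_distrib
    rw [e3] at e1
    linarith
  rw [hsq, hω2, hω, Finset.sum_add_distrib] at hlow
  obtain ⟨h5, h6⟩ := abs_le.1 hu
  nlinarith [mul_le_mul_of_nonneg_left h5 hμ0]

end Pool.Agent.TNY
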