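import Pool.Agent.TNY.Err
import Pool.Agent.TNY.Lo
import Pool.Agent.TNY.Mu
import Pool.Agent.TNY.Tk

/-!
# TNY/Gp: for many pairs no `a b + h`, `1 ≤ h ≤ K`, is `y`-smooth (difficulty 3)

We may assume `K ≥ 1`.  Let `s = 64 K`, `T = 2 ^ s`, `S = Pairs (y / 4) (8 T + 2) X`, `Q = Qs y (y ^ T)`, `g q = 1 / (q - 1)`, `μ = ∑ g ≥ 4 K` (`mu_lower`), `μ ≤ 1 + T log y`
(`mu_upper`).  `pairs_lower (8 T + 2) (2 k)`: `c1 X ≤ S.card` (`v = y / 4`, `X ≤ y ^ k ≤ v ^ (2 k)` for `y ≥ 64`; `v ^ (r + 1) ≤ y ^ (12 T + 3) ≤ X`).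
For each `1 ≤ h ≤ K ≤ y`, `tk` with `E1 = E2 = C (1 + log y) ^ 3 / y * X` (`err`): the number `b_h` of pairs with no `q ∈ Q` dividing `a b + h` satisfies
`b_h μ ^ 2 ≤ μ S.card + (2 + 2 μ) E1`, so `b_h ≤ S.card / μ + 4 E1 / μ ≤ S.card / (4 K) + S.card / (4 K)` if `4 E1 ≤ c1 X` (true for large `y`: `(1 + log y) ^ 3 / y → 0`).
Hence at least `S.card / 2` pairs have for every `h` a prime `q ∈ Q`, `q > y`, with `q ∣ a b + h`, so `y < q ≤ P (a b + h)` (`le_P`; `a b + h ≠ 0`).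
-/

namespace Pool.Agent.TNY

open Pool.Agent.TN Finset

/-- `C (1 + log y) ^ 3 / y` is small for large `y` -/
private theorem gp_small (C c : ℝ) (hC : 0 < C) (hc : 0 < c) : ∃ y0 : ℕ, ∀ y : ℕ, y0 ≤ y →
    4 * (C * (1 + Real.log y) ^ 3 / y) ≤ c := by
  have h1 := (Real.isLittleO_pow_log_id_atTop (n := 3)).def (show 0 < c / (32 * C) by positivity)
  have h2 := (tendsto_natCast_atTop_atTop (R := ℝ)).eventually h1
  obtain ⟨y1, hy1⟩ := Filter.eventually_atTop.1 h2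
  refine ⟨max y1 3, fun y hy => ?_⟩
  have hy3 : 3 ≤ y := (le_max_right _ _).trans hy
  have hyR : (3 : ℝ) ≤ y := by exact_mod_cast hy3
  have h3 := hy1 y ((le_max_left _ _).trans hy)
  simp only [id, Real.norm_eq_abs] at h3
  have hlog : 1 ≤ Real.log y := by
    rw [Real.le_log_iff_exp_le (by linarith)]
    have := Real.exp_one_lt_d9
    linarith
  rw [abs_of_nonneg (by positivity), abs_of_nonneg (by positivity)] at h3
  have h4 : (1 + Real.log y) ^ 3 ≤ (2 * Real.log y) ^ 3 := by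
    apply pow_le_pow_left₀ (by linarith)
    linarith
  have hy0 : (0 : ℝ) < y := by linarith
  rw [mul_div_assoc', div_le_iff₀ hy0]
  have h5 : C * (1 + Real.log y) ^ 3 ≤ C * (8 * Real.log y ^ 3) := by
    apply mul_le_mul_of_nonneg_left _ hC.le
    calc (1 + Real.log y) ^ 3 ≤ (2 * Real.log y) ^ 3 := h4
      _ = 8 * Real.log y ^ 3 := by ring
  have h6 : c / (32 * C) * y * (32 * C) = c * y := by
    field_simp
  have h7 : Real.log y ^ 3 * (32 * C) ≤ c / (32 * C) * y * (32 * C) :=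
    mul_le_mul_of_nonneg_right h3 (by positivity)
  rw [h6] at h7
  linarith

/-- the elementary inequality for the number of exceptional pairs -/
private theorem gp_bound {b mu n E K : ℝ} (hK : 1 ≤ K) (hmu : 4 * K ≤ mu) (hn : 0 ≤ n) (hE : 0 ≤ E)
    (hEn : 4 * E ≤ n) (h : b * mu ^ 2 ≤ mu * n + (1 + 2 * mu) * E + E) : b ≤ n / (2 * K) := by
  have hmu0 : 0 < mu := by linarith
  have h1 : (1 + 2 * mu) * E + E ≤ mu * n := by
    have : (1 + 2 * mu) * E + E = 2 * (1 + mu) * E := by ring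
    rw [this]
    have h2 : 2 * (1 + mu) ≤ 4 * mu := by linarith
    calc 2 * (1 + mu) * E ≤ 4 * mu * E := mul_le_mul_of_nonneg_right h2 hE
      _ = mu * (4 * E) := by ring
      _ ≤ mu * n := mul_le_mul_of_nonneg_left hEn hmu0.le
  have h2 : b * mu ^ 2 ≤ 2 * n * mu := by linarith
  have h3 : b * mu ≤ 2 * n := by
    have h4 : (b * mu) * mu ≤ (2 * n) * mu := by
      calc (b * mu) * mu = b * mu ^ 2 := by ring
        _ ≤ 2 * n * mu := h2
    exact le_of_mul_le_mul_right h4 hmu0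
  rw [le_div_iff₀ (by linarith)]
  by_cases hb : 0 ≤ b
  · have h5 : b * (4 * K) ≤ 2 * n := (mul_le_mul_of_nonneg_left hmu hb).trans h3
    linarith
  · push Not at hb
    have : b * (2 * K) ≤ 0 := mul_nonpos_of_nonpos_of_nonneg hb.le (by linarith)
    linarith

private theorem gp_pos (K : ℕ) (hK : 1 ≤ K) : ∃ U r : ℕ, ∀ k : ℕ, ∃ c : ℝ, 0 < c ∧ ∃ y0 : ℕ, ∀ y X : ℕ, y0 ≤ y →
    y ^ U ≤ X → X ≤ y ^ k →
      ∃ S : Finset (ℕ × ℕ), S ⊆ Pairs (y / 4) r X ∧ c * X ≤ (S.card : ℝ) ∧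
        ∀ x ∈ S, ∀ h : ℕ, 1 ≤ h → h ≤ K → y < P (x.1 * x.2 + h) := by
  classical
  set T : ℕ := 2 ^ (64 * K) with hT
  have hT1 : 1 ≤ T := Nat.one_le_two_pow
  refine ⟨12 * T + 3, 8 * T + 2, fun k => ?_⟩
  obtain ⟨c1, hc1, v0, hv0⟩ := pairs_lower (8 * T + 2) (2 * k)
  obtain ⟨C, hC, y1, hy1⟩ := err T hT1
  obtain ⟨y2, hy2⟩ := mu_lower (64 * K)
  obtain ⟨y3, hy3⟩ := gp_small C c1 hC hc1
  refine ⟨c1 / 2, by positivity, 4 * v0 + 64 + y1 + y2 + y3 + K, fun y X hy hX1 hX2 => ?_⟩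
  have hy64 : 64 ≤ y := by omega
  -- the set of the pairs
  set S := Pairs (y / 4) (8 * T + 2) X with hS
  have hcard : c1 * X ≤ (S.card : ℝ) := by
    apply hv0 (y / 4) X (by omega)
    · calc (y / 4) ^ (8 * T + 2 + 1) ≤ y ^ (8 * T + 2 + 1) := Nat.pow_le_pow_left (Nat.div_le_self _ _) _
        _ ≤ y ^ (12 * T + 3) := Nat.pow_le_pow_right (by omega) (by omega)
        _ ≤ X := hX1
    · calc X ≤ y ^ k := hX2
        _ ≤ ((y / 4) ^ 2) ^ k := by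
            apply Nat.pow_le_pow_left
            have h1 : y ≤ 4 * (y / 4) + 3 := by omega
            have h2 : 16 ≤ y / 4 := by omega
            nlinarith
        _ = (y / 4) ^ (2 * k) := by rw [← pow_mul]
  set Q := Qs y (y ^ T) with hQ
  set g : ℕ → ℝ := fun q => 1 / ((q : ℝ) - 1) with hg
  have hg0 : ∀ q ∈ Q, 0 ≤ g q := by
    intro q hq
    have h1 := (mem_Qs.1 hq).1.1
    have h2 : (1 : ℝ) ≤ q := by exact_mod_cast (by omega : 1 ≤ q)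
    simp only [hg]
    apply div_nonneg zero_le_one
    linarith
  have hmu : 4 * (K : ℝ) ≤ ∑ q ∈ Q, g q := by
    have h1 := hy2 y (by omega)
    have h2 : ((64 * K : ℕ) : ℝ) / 16 = 4 * (K : ℝ) := by
      push_cast
      ring
    rw [h2] at h1
    exact h1
  set E : ℝ := C * (1 + Real.log y) ^ 3 / y * X with hE
  have hlog : 0 ≤ Real.log y := Real.log_natCast_nonneg y
  have hE0 : 0 ≤ E := by positivity
  have hEn : 4 * E ≤ (S.card : ℝ) := by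
    have h1 := hy3 y (by omega)
    calc 4 * E = 4 * (C * (1 + Real.log y) ^ 3 / y) * X := by rw [hE]; ring
      _ ≤ c1 * X := mul_le_mul_of_nonneg_right h1 (Nat.cast_nonneg _)
      _ ≤ S.card := hcard
  have hb : ∀ h ∈ Finset.Icc 1 K,
      ((S.filter (fun x => ∀ q ∈ Q, ¬ q ∣ x.1 * x.2 + h)).card : ℝ) ≤ S.card / (2 * K) := by
    intro h hh
    rw [Finset.mem_Icc] at hh
    have h0 := hy1 y X h (by omega) hX1 hh.1 (by omega)
    rw [← hS, ← hQ] at h0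
    have hn1 : 0 ≤ ∑ q ∈ Q, |((S.filter (fun x => q ∣ x.1 * x.2 + h)).card : ℝ) - S.card * (1 / ((q : ℝ) - 1))| :=
      Finset.sum_nonneg fun q _ => abs_nonneg _
    have hn2 : 0 ≤ ∑ q ∈ Q, ∑ q' ∈ Q.erase q,
        |((S.filter (fun x => q ∣ x.1 * x.2 + h ∧ q' ∣ x.1 * x.2 + h)).card : ℝ) -
          S.card * (1 / ((q : ℝ) - 1) * (1 / ((q' : ℝ) - 1)))| :=
      Finset.sum_nonneg fun q _ => Finset.sum_nonneg fun q' _ => abs_nonneg _
    have h1 := tk S h Q g hg0 E E (by simp only [hg]; linarith) (by simp only [hg]; linarith)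
    exact gp_bound (by exact_mod_cast hK) hmu (Nat.cast_nonneg _) hE0 hEn h1
  refine ⟨S.filter (fun x => ∀ h ∈ Finset.Icc 1 K, ∃ q ∈ Q, q ∣ x.1 * x.2 + h), Finset.filter_subset _ _, ?_, ?_⟩
  · have hcover : S ⊆ (S.filter (fun x => ∀ h ∈ Finset.Icc 1 K, ∃ q ∈ Q, q ∣ x.1 * x.2 + h)) ∪
        (Finset.Icc 1 K).biUnion (fun h => S.filter (fun x => ∀ q ∈ Q, ¬ q ∣ x.1 * x.2 + h)) := by
      intro x hx
      rw [Finset.mem_union, Finset.mem_filter, Finset.mem_biUnion]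
      by_cases hx' : ∀ h ∈ Finset.Icc 1 K, ∃ q ∈ Q, q ∣ x.1 * x.2 + h
      · exact Or.inl ⟨hx, hx'⟩
      · right
        push Not at hx'
        obtain ⟨h, hh, hq⟩ := hx'
        exact ⟨h, hh, Finset.mem_filter.2 ⟨hx, hq⟩⟩
    have h1 : (S.card : ℝ) ≤ ((S.filter (fun x => ∀ h ∈ Finset.Icc 1 K, ∃ q ∈ Q, q ∣ x.1 * x.2 + h)).card : ℝ) +
        ∑ h ∈ Finset.Icc 1 K, ((S.filter (fun x => ∀ q ∈ Q, ¬ q ∣ x.1 * x.2 + h)).card : ℝ) := by
      have h2 := (Finset.card_le_card hcover).trans (Finset.card_union_le _ _)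
      have h3 := Finset.card_biUnion_le (s := Finset.Icc 1 K)
        (t := fun h => S.filter (fun x => ∀ q ∈ Q, ¬ q ∣ x.1 * x.2 + h))
      have h4 := h2.trans (Nat.add_le_add_left h3 _)
      exact_mod_cast h4
    have h2 : ∑ h ∈ Finset.Icc 1 K, ((S.filter (fun x => ∀ q ∈ Q, ¬ q ∣ x.1 * x.2 + h)).card : ℝ) ≤ S.card / 2 := by
      calc _ ≤ ∑ h ∈ Finset.Icc 1 K, (S.card : ℝ) / (2 * K) := Finset.sum_le_sum hb
        _ = S.card / 2 := by
            rw [Finset.sum_const, Nat.card_Icc, Nat.add_sub_cancel, nsmul_eq_mul]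
            have : (K : ℝ) ≠ 0 := by
              have : (1 : ℝ) ≤ K := by exact_mod_cast hK
              linarith
            field_simp
    linarith
  · intro x hx h hh1 hh2
    obtain ⟨q, hq, hdvd⟩ := (Finset.mem_filter.1 hx).2 h (Finset.mem_Icc.2 ⟨hh1, hh2⟩)
    obtain ⟨⟨hq1, hq2⟩, hq3⟩ := mem_Qs.1 hq
    exact hq1.trans_le (le_P (Nat.mem_primeFactors.2 ⟨hq3, hdvd, by omega⟩))

theorem good_pairs (K : ℕ) : ∃ U r : ℕ, ∀ k : ℕ, ∃ c : ℝ, 0 < c ∧ ∃ y0 : ℕ, ∀ y X : ℕ, y0 ≤ y →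
    y ^ U ≤ X → X ≤ y ^ k →
      ∃ S : Finset (ℕ × ℕ), S ⊆ Pairs (y / 4) r X ∧ c * X ≤ (S.card : ℝ) ∧
        ∀ x ∈ S, ∀ h : ℕ, 1 ≤ h → h ≤ K → y < P (x.1 * x.2 + h) := by
  obtain ⟨U, r, h⟩ := gp_pos (K + 1) (by omega)
  refine ⟨U, r, fun k => ?_⟩
  obtain ⟨c, hc, y0, h0⟩ := h k
  refine ⟨c, hc, y0, fun y X h1 h2 h3 => ?_⟩
  obtain ⟨S, hS1, hS2, hS3⟩ := h0 y X h1 h2 h3
  exact ⟨S, hS1, hS2, fun x hx h' h4 h5 => hS3 x hx h' h4 (by omega)⟩

end Pool.Agent.TNY
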