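import Pool.Agent.TNY.Defs

/-!
# TNY/V1: the variance and exponential sums (difficulty 3)

* `Vd_eq`: with `A(r)` = number of `a ∈ A` with `a % d = r`: `∑_r A(r) = A.card`, so `Vd d A = ∑_r A(r) ^ 2 - A.card ^ 2 / d`.
  `∑_{c ∈ range d} ‖∑_{a ∈ A} ee (a c / d)‖ ^ 2 = ∑_{a, a'} ∑_c ee ((a - a') c / d) = d * #{(a, a') : a % d = a' % d} = d ∑_r A(r) ^ 2`
  (geometric sum of a root of unity), and the term `c = 0` is `A.card ^ 2`.
* `sum_qq`: `c ∈ Ico 1 (q q')` is coprime to `q q'`, or `c = q' c'` with `c' ∈ Ico 1 q = cop q` (`c / (q q') = c' / q`), or `c = q c'`,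
  `c' ∈ Ico 1 q' = cop q'`; not both (`q q' ∤ c`); `0 ∉ cop (q q')`.
-/

namespace Pool.Agent.TNY

open Pool.Agent.TN Finset

private theorem v1_pow (x : ℝ) (n : ℕ) : ee (x * n) = ee x ^ n := by
  unfold ee
  rw [← Complex.exp_nat_mul]
  push_cast
  ring_nf

private theorem v1_add (x y : ℝ) : ee (x + y) = ee x * ee y := by
  unfold ee
  rw [← Complex.exp_add]
  push_cast
  ring_nf

private theorem v1_int (k : ℤ) : ee k = 1 := by
  unfold ee
  rw [Complex.exp_eq_one_iff]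
  exact ⟨k, by push_cast; ring⟩

private theorem v1_conj (x : ℝ) : (starRingEnd ℂ) (ee x) = ee (-x) := by
  unfold ee
  rw [← Complex.exp_conj]
  congr 1
  simp only [map_mul, Complex.conj_ofReal, Complex.conj_I, map_ofNat]
  push_cast
  ring

private theorem v1_one {d : ℕ} (hd : 1 ≤ d) (a a' : ℕ) : ee (((a : ℝ) - a') / d) = 1 ↔ a % d = a' % d := by
  have hd0 : (d : ℝ) ≠ 0 := by
    have : 0 < d := hd
    positivity
  constructor
  · intro h
    unfold ee at h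
    rw [Complex.exp_eq_one_iff] at h
    obtain ⟨n, hn⟩ := h
    have hpi : (2 * Real.pi * Complex.I : ℂ) ≠ 0 := Complex.two_pi_I_ne_zero
    have h1 : (((((a : ℝ) - a') / d : ℝ)) : ℂ) = (n : ℂ) := by
      have h2 : (2 * Real.pi * Complex.I : ℂ) * (((((a : ℝ) - a') / d : ℝ)) : ℂ) = (2 * Real.pi * Complex.I : ℂ) * (n : ℂ) := by
        rw [hn]
        ring
      exact mul_left_cancel₀ hpi h2
    have h3 : ((a : ℝ) - a') / d = n := by exact_mod_cast h1
    rw [div_eq_iff hd0] at h3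
    have h4 : ((a : ℤ) - a') = n * d := by exact_mod_cast h3
    have h5 : a' ≡ a [MOD d] := by
      rw [Nat.modEq_iff_dvd]
      exact ⟨n, by rw [h4]; ring⟩
    exact h5.symm
  · intro h
    have h5 : a' ≡ a [MOD d] := h.symm
    rw [Nat.modEq_iff_dvd] at h5
    obtain ⟨n, hn⟩ := h5
    have h3 : ((a : ℝ) - a') / d = (n : ℤ) := by
      rw [div_eq_iff hd0]
      have h6 : ((a : ℝ) - a') = d * n := by exact_mod_cast hn
      rw [h6]
      ring
    rw [h3]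
    exact v1_int n

private theorem v1_geom {d : ℕ} (hd : 1 ≤ d) (a a' : ℕ) :
    ∑ c ∈ range d, ee (((a : ℝ) - a') / d * c) = if a % d = a' % d then (d : ℂ) else 0 := by
  have hd0 : (d : ℝ) ≠ 0 := by
    have : 0 < d := hd
    positivity
  simp only [v1_pow]
  split_ifs with h
  · rw [(v1_one hd a a').2 h]
    simp
  · have h1 : ee (((a : ℝ) - a') / d) ≠ 1 := fun h2 => h ((v1_one hd a a').1 h2)
    rw [geom_sum_eq h1]
    have h2 : ee (((a : ℝ) - a') / d) ^ d = 1 := by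
      rw [← v1_pow, div_mul_cancel₀ _ hd0]
      have h3 : ((a : ℝ) - a') = (((a : ℤ) - a' : ℤ) : ℝ) := by push_cast; ring
      rw [h3]
      exact v1_int _
    rw [h2]
    simp

private theorem v1_sq {d : ℕ} (A : Finset ℕ) (c : ℕ) :
    ((‖∑ a ∈ A, ee ((a : ℝ) * c / d)‖ ^ 2 : ℝ) : ℂ) =
      ∑ a ∈ A, ∑ a' ∈ A, ee (((a : ℝ) - a') / d * c) := by
  have h1 : ((‖∑ a ∈ A, ee ((a : ℝ) * c / d)‖ ^ 2 : ℝ) : ℂ) =
      (∑ a ∈ A, ee ((a : ℝ) * c / d)) * (starRingEnd ℂ) (∑ a ∈ A, ee ((a : ℝ) * c / d)) := by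
    rw [Complex.mul_conj']
    push_cast
    rfl
  rw [h1, map_sum, Finset.sum_mul_sum]
  refine Finset.sum_congr rfl fun a _ => Finset.sum_congr rfl fun a' _ => ?_
  rw [v1_conj, ← v1_add]
  congr 1
  ring

private theorem v1_total {d : ℕ} (hd : 1 ≤ d) (A : Finset ℕ) :
    ∑ c ∈ range d, ‖∑ a ∈ A, ee ((a : ℝ) * c / d)‖ ^ 2 =
      d * ∑ r ∈ range d, ((A.filter (fun a => a % d = r)).card : ℝ) ^ 2 := by
  have h1 : ((∑ c ∈ range d, ‖∑ a ∈ A, ee ((a : ℝ) * c / d)‖ ^ 2 : ℝ) : ℂ) =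
      ((d * ∑ r ∈ range d, ((A.filter (fun a => a % d = r)).card : ℝ) ^ 2 : ℝ) : ℂ) := by
    rw [Complex.ofReal_sum]
    simp only [v1_sq]
    rw [Finset.sum_comm]
    have h2 : ∀ a ∈ A, ∑ c ∈ range d, ∑ a' ∈ A, ee (((a : ℝ) - a') / d * c) =
        (d : ℂ) * ((A.filter (fun a' => a' % d = a % d)).card : ℂ) := by
      intro a _
      rw [Finset.sum_comm]
      simp only [v1_geom hd]
      rw [← Finset.sum_filter, Finset.sum_const, nsmul_eq_mul, mul_comm]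
      congr 3
      ext x
      simp only [Finset.mem_filter]
      constructor
      · rintro ⟨h3, h4⟩
        exact ⟨h3, h4.symm⟩
      · rintro ⟨h3, h4⟩
        exact ⟨h3, h4.symm⟩
    rw [Finset.sum_congr rfl h2]
    have hmaps : ∀ a ∈ A, a % d ∈ range d := fun a _ => Finset.mem_range.2 (Nat.mod_lt _ hd)
    rw [← Finset.sum_fiberwise_of_maps_to hmaps]
    push_cast
    rw [Finset.mul_sum]
    refine Finset.sum_congr rfl fun r _ => ?_
    have h3 : ∀ a ∈ A.filter (fun a => a % d = r), (d : ℂ) * ((A.filter (fun a' => a' % d = a % d)).card : ℂ) =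
        (d : ℂ) * ((A.filter (fun a => a % d = r)).card : ℂ) := by
      intro a ha
      rw [(Finset.mem_filter.1 ha).2]
    rw [Finset.sum_congr rfl h3, Finset.sum_const, nsmul_eq_mul]
    ring
  exact_mod_cast h1

theorem Vd_eq {d : ℕ} (hd : 1 ≤ d) (A : Finset ℕ) :
    Vd d A = 1 / (d : ℝ) * ∑ c ∈ Ico 1 d, ‖∑ a ∈ A, ee ((a : ℝ) * c / d)‖ ^ 2 := by
  have hd0 : (d : ℝ) ≠ 0 := by
    have : 0 < d := hd
    positivity
  have h1 := v1_total hd A
  rw [Finset.range_eq_Ico, Finset.sum_eq_sum_Ico_succ_bot (show 0 < d from hd), zero_add] at h1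
  have h0 : ‖∑ a ∈ A, ee ((a : ℝ) * (0 : ℕ) / d)‖ ^ 2 = (A.card : ℝ) ^ 2 := by
    have h2 : ∀ a ∈ A, ee ((a : ℝ) * (0 : ℕ) / d) = 1 := by
      intro a _
      have h3 := v1_int 0
      simpa using h3
    rw [Finset.sum_congr rfl h2]
    simp
  rw [h0, ← Finset.range_eq_Ico] at h1
  have hmaps : ∀ a ∈ A, a % d ∈ range d := fun a _ => Finset.mem_range.2 (Nat.mod_lt _ hd)
  have hcard : ∑ r ∈ range d, ((A.filter (fun a => a % d = r)).card : ℝ) = A.card := by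
    have h2 := Finset.card_eq_sum_card_fiberwise hmaps
    rw [h2]
    push_cast
    rfl
  have h4 : Vd d A = ∑ r ∈ range d, ((A.filter (fun a => a % d = r)).card : ℝ) ^ 2 - (A.card : ℝ) ^ 2 / d := by
    unfold Vd
    have h5 : ∀ r ∈ range d, (((A.filter (fun a => a % d = r)).card : ℝ) - (A.card : ℝ) / d) ^ 2 =
        ((A.filter (fun a => a % d = r)).card : ℝ) ^ 2 -
          2 * ((A.card : ℝ) / d) * ((A.filter (fun a => a % d = r)).card : ℝ) + ((A.card : ℝ) / d) ^ 2 := by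
      intro r _
      ring
    rw [Finset.sum_congr rfl h5, Finset.sum_add_distrib, Finset.sum_sub_distrib, ← Finset.mul_sum, hcard,
      Finset.sum_const, Finset.card_range, nsmul_eq_mul]
    field_simp
    ring
  rw [h4]
  have h6 : ∑ c ∈ Ico 1 d, ‖∑ a ∈ A, ee ((a : ℝ) * c / d)‖ ^ 2 =
      d * ∑ r ∈ range d, ((A.filter (fun a => a % d = r)).card : ℝ) ^ 2 - (A.card : ℝ) ^ 2 := by
    linarith
  rw [h6]
  field_simp

theorem cop_prime {q : ℕ} (hq : q.Prime) : cop q = Ico 1 q := by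
  unfold cop
  ext r
  rw [Finset.mem_filter, Finset.mem_range, Finset.mem_Ico, Nat.coprime_comm, hq.coprime_iff_not_dvd]
  constructor
  · rintro ⟨h1, h2⟩
    refine ⟨?_, h1⟩
    rcases Nat.eq_zero_or_pos r with h3 | h3
    · exact absurd (h3 ▸ dvd_zero q) h2
    · exact h3
  · rintro ⟨h1, h2⟩
    exact ⟨h2, fun h3 => absurd (Nat.le_of_dvd h1 h3) (by omega)⟩

private theorem v1_part {q q' : ℕ} (hq : 0 < q) (hq' : 0 < q') (F : ℝ → ℝ) (s : Finset ℕ)
    (hs : ∀ c, c ∈ s ↔ q' ∣ c ∧ 1 ≤ c ∧ c < q * q') :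
    ∑ c ∈ s, F ((c : ℝ) / ((q * q' : ℕ) : ℝ)) = ∑ c ∈ Ico 1 q, F ((c : ℝ) / q) := by
  have h1 : s = (Ico 1 q).image (fun c => q' * c) := by
    ext c
    rw [hs, Finset.mem_image]
    constructor
    · rintro ⟨⟨c', rfl⟩, h2, h3⟩
      refine ⟨c', Finset.mem_Ico.2 ⟨?_, ?_⟩, rfl⟩
      · rcases Nat.eq_zero_or_pos c' with h4 | h4
        · rw [h4] at h2
          omega
        · exact h4
      · rw [mul_comm q q'] at h3
        exact lt_of_mul_lt_mul_left h3 (Nat.zero_le _)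
    · rintro ⟨c', hc', rfl⟩
      rw [Finset.mem_Ico] at hc'
      refine ⟨Dvd.intro _ rfl, Nat.mul_pos hq' hc'.1, ?_⟩
      rw [mul_comm q q']
      exact Nat.mul_lt_mul_of_pos_left hc'.2 hq'
  rw [h1, Finset.sum_image]
  · refine Finset.sum_congr rfl fun c _ => ?_
    congr 1
    have h2 : (q : ℝ) ≠ 0 := by positivity
    have h3 : (q' : ℝ) ≠ 0 := by positivity
    push_cast
    field_simp
  · intro x _ y _ hxy
    exact Nat.eq_of_mul_eq_mul_left hq' hxy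

theorem sum_qq {q q' : ℕ} (hq : q.Prime) (hq' : q'.Prime) (hne : q ≠ q') (F : ℝ → ℝ) :
    ∑ c ∈ Ico 1 (q * q'), F ((c : ℝ) / ((q * q' : ℕ) : ℝ)) =
      ∑ c ∈ cop (q * q'), F ((c : ℝ) / ((q * q' : ℕ) : ℝ)) + ∑ c ∈ cop q, F ((c : ℝ) / q) +
        ∑ c ∈ cop q', F ((c : ℝ) / q') := by
  have hqq : Nat.Coprime q q' := (Nat.coprime_primes hq hq').2 hne
  rw [cop_prime hq, cop_prime hq', ← Finset.sum_filter_add_sum_filter_not (Ico 1 (q * q')) (fun c => q' ∣ c),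
    ← Finset.sum_filter_add_sum_filter_not ((Ico 1 (q * q')).filter (fun c => ¬ q' ∣ c)) (fun c => q ∣ c)]
  have h1 : ∑ c ∈ (Ico 1 (q * q')).filter (fun c => q' ∣ c), F ((c : ℝ) / ((q * q' : ℕ) : ℝ)) =
      ∑ c ∈ Ico 1 q, F ((c : ℝ) / q) := by
    apply v1_part hq.pos hq'.pos
    intro c
    rw [Finset.mem_filter, Finset.mem_Ico]
    tauto
  have h2 : ∑ c ∈ ((Ico 1 (q * q')).filter (fun c => ¬ q' ∣ c)).filter (fun c => q ∣ c), F ((c : ℝ) / ((q * q' : ℕ) : ℝ)) =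
      ∑ c ∈ Ico 1 q', F ((c : ℝ) / q') := by
    rw [mul_comm q q']
    apply v1_part hq'.pos hq.pos
    intro c
    rw [Finset.mem_filter, Finset.mem_filter, Finset.mem_Ico]
    constructor
    · rintro ⟨⟨⟨h3, h4⟩, h5⟩, h6⟩
      exact ⟨h6, h3, h4⟩
    · rintro ⟨h6, h3, h4⟩
      refine ⟨⟨⟨h3, h4⟩, ?_⟩, h6⟩
      intro h7
      have h8 : q * q' ∣ c := hqq.mul_dvd_of_dvd_of_dvd h6 h7
      have h9 := Nat.le_of_dvd h3 h8
      rw [mul_comm] at h9
      omega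
  have h3 : ((Ico 1 (q * q')).filter (fun c => ¬ q' ∣ c)).filter (fun c => ¬ q ∣ c) = cop (q * q') := by
    ext c
    unfold cop
    rw [Finset.mem_filter, Finset.mem_filter, Finset.mem_filter, Finset.mem_Ico, Finset.mem_range,
      Nat.coprime_mul_iff_right, Nat.coprime_comm, hq.coprime_iff_not_dvd, Nat.coprime_comm (n := c) (m := q'),
      hq'.coprime_iff_not_dvd]
    constructor
    · rintro ⟨⟨⟨h4, h5⟩, h6⟩, h7⟩
      exact ⟨h5, h7, h6⟩
    · rintro ⟨h5, h7, h6⟩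
      refine ⟨⟨⟨?_, h5⟩, h6⟩, h7⟩
      rcases Nat.eq_zero_or_pos c with h8 | h8
      · exact absurd (h8 ▸ dvd_zero q) h7
      · exact h8
  rw [h1, h2, h3]
  ring

end Pool.Agent.TNY
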