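import Pool.Agent.TNY.V1

/-!
# TNY/V2: the sum of the variances (difficulty 3)

Let `F θ = ‖∑ a ∈ A, ee (a θ)‖ ^ 2`, `G d = ∑ c ∈ cop d, F (c / d)`.  `large_sieve` (file `LS.lean`, with `A := z ^ 2`, `b n = 1` if `n ∈ A`, else `0`):
`∑ d ∈ Icc 1 (z ^ 2), G d ≤ L := C0 (M + z ^ 4) (1 + log (z ^ 2)) A.card ≤ 4 C0 M (1 + log z) A.card`.
* `∑ q, Vd q A = ∑ q, G q / q ≤ L / y` (`Vd_eq`, `cop_prime`).
* `Vd (q q') A = (G (q q') + G q + G q') / (q q')` (`Vd_eq`, `sum_qq`).  Every `d` is `q q'` for at most two ordered pairs of different primes, so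
  `∑ G (q q') / (q q') ≤ 2 L / y ^ 2 ≤ 2 L / y`; `∑_{q, q'} G q / (q q') ≤ (∑ 1 / q') * (∑ G q / q) ≤ (1 + log z) L / y` (harmonic sum; `Qs y z ⊆ Icc 1 z`).
Total `≤ (L / y) (1 + 2 + 2 (1 + log z)) ≤ 5 (1 + log z) L / y`.
-/

namespace Pool.Agent.TNY

open Pool.Agent.TN Finset

private noncomputable def v2F (A : Finset ℕ) (θ : ℝ) : ℝ := ‖∑ a ∈ A, ee ((a : ℝ) * θ)‖ ^ 2

private noncomputable def v2G (A : Finset ℕ) (d : ℕ) : ℝ := ∑ c ∈ cop d, v2F A ((c : ℝ) / d)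

private lemma v2F_nonneg (A : Finset ℕ) (θ : ℝ) : 0 ≤ v2F A θ := by
  unfold v2F
  positivity

private lemma v2G_nonneg (A : Finset ℕ) (d : ℕ) : 0 ≤ v2G A d :=
  sum_nonneg fun _ _ => v2F_nonneg _ _

private lemma v2_Vd {d : ℕ} (hd : 1 ≤ d) (A : Finset ℕ) :
    Vd d A = 1 / (d : ℝ) * ∑ c ∈ Ico 1 d, v2F A ((c : ℝ) / d) := by
  rw [Vd_eq hd]
  congr 1
  refine sum_congr rfl fun c _ => ?_
  unfold v2F
  congr 2
  refine sum_congr rfl fun a _ => ?_
  rw [mul_div_assoc]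

private lemma v2_Vq {q : ℕ} (hq : q.Prime) (A : Finset ℕ) : Vd q A = 1 / (q : ℝ) * v2G A q := by
  rw [v2_Vd hq.one_lt.le]
  unfold v2G
  rw [cop_prime hq]

private lemma v2_Vqq {q q' : ℕ} (hq : q.Prime) (hq' : q'.Prime) (hne : q ≠ q') (A : Finset ℕ) :
    Vd (q * q') A = 1 / ((q : ℝ) * q') * v2G A (q * q') + (1 / (q' : ℝ) * (1 / (q : ℝ) * v2G A q) +
      1 / (q : ℝ) * (1 / (q' : ℝ) * v2G A q')) := by
  rw [v2_Vd (Nat.mul_pos hq.pos hq'.pos), sum_qq hq hq' hne]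
  unfold v2G
  have h1 : (q : ℝ) ≠ 0 := by exact_mod_cast hq.ne_zero
  have h2 : (q' : ℝ) ≠ 0 := by exact_mod_cast hq'.ne_zero
  push_cast
  field_simp
  ring

private lemma v2_sieve : ∃ C : ℝ, 0 < C ∧ ∀ (z N0 M : ℕ) (A : Finset ℕ), 2 ≤ z → z ^ 4 ≤ M →
    A ⊆ Ioc N0 (N0 + M) →
    ∑ d ∈ Icc 1 (z ^ 2), v2G A d ≤ C * (1 + Real.log z) * M * A.card := by
  obtain ⟨C, hC, h⟩ := large_sieve
  refine ⟨4 * C, by positivity, fun z N0 M A hz hM hA => ?_⟩
  have h1 := h N0 M (z ^ 2) (fun n => if n ∈ A then 1 else 0) (Nat.one_le_pow _ _ (by omega))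
  have h2 : ∑ a ∈ Icc 1 (z ^ 2), ∑ r ∈ cop a,
      ‖∑ n ∈ Ioc N0 (N0 + M), (if n ∈ A then (1 : ℂ) else 0) * ee ((n : ℝ) * r / a)‖ ^ 2 =
        ∑ d ∈ Icc 1 (z ^ 2), v2G A d := by
    refine sum_congr rfl fun d _ => sum_congr rfl fun c _ => ?_
    unfold v2F
    congr 2
    simp only [ite_mul, one_mul, zero_mul]
    rw [← Finset.sum_filter]
    have h3 : (Ioc N0 (N0 + M)).filter (fun n => n ∈ A) = A := by
      ext n
      rw [mem_filter]
      exact ⟨fun h => h.2, fun h => ⟨hA h, h⟩⟩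
    rw [h3]
    refine sum_congr rfl fun a _ => ?_
    rw [mul_div_assoc]
  have h4 : ∑ n ∈ Ioc N0 (N0 + M), ‖(if n ∈ A then (1 : ℂ) else 0)‖ ^ 2 = A.card := by
    have h5 : ∀ n ∈ Ioc N0 (N0 + M), ‖(if n ∈ A then (1 : ℂ) else 0)‖ ^ 2 = if n ∈ A then (1 : ℝ) else 0 := by
      intro n _
      split_ifs <;> simp
    rw [sum_congr rfl h5, ← Finset.sum_filter]
    have h3 : (Ioc N0 (N0 + M)).filter (fun n => n ∈ A) = A := by
      ext n
      rw [mem_filter]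
      exact ⟨fun h => h.2, fun h => ⟨hA h, h⟩⟩
    rw [h3]
    simp
  rw [h2, h4] at h1
  refine h1.trans ?_
  have hz1 : (2 : ℝ) ≤ z := by exact_mod_cast hz
  have hl : 0 ≤ Real.log z := Real.log_nonneg (by linarith)
  have h6 : Real.log ((z ^ 2 : ℕ) : ℝ) = 2 * Real.log z := by
    push_cast
    rw [Real.log_pow]
    norm_num
  have h7 : (((z ^ 2 : ℕ) : ℝ)) ^ 2 ≤ M := by
    have : (z ^ 2) ^ 2 ≤ M := by
      rw [← pow_mul]
      exact hM
    exact_mod_cast this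
  rw [h6]
  have h8 : (0 : ℝ) ≤ A.card := Nat.cast_nonneg _
  have h9 : (0 : ℝ) ≤ M := Nat.cast_nonneg _
  have h10 : C * ((M : ℝ) + (((z ^ 2 : ℕ) : ℝ)) ^ 2) * (1 + 2 * Real.log z) ≤ C * (2 * M) * (2 * (1 + Real.log z)) := by
    apply mul_le_mul
    · apply mul_le_mul_of_nonneg_left _ hC.le
      linarith
    · linarith
    · positivity
    · positivity
  calc _ ≤ C * (2 * M) * (2 * (1 + Real.log z)) * A.card := mul_le_mul_of_nonneg_right h10 h8
    _ = _ := by ring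

private lemma v2_Qs {y z q : ℕ} (h : q ∈ Qs y z) : (y < q ∧ q ≤ z) ∧ q.Prime := mem_Qs.1 h

private lemma v2_sumq {y z : ℕ} (hy : 2 ≤ y) (hyz : y ≤ z) (A : Finset ℕ) :
    ∑ q ∈ Qs y z, v2G A q ≤ ∑ d ∈ Icc 1 (z ^ 2), v2G A d := by
  apply sum_le_sum_of_subset_of_nonneg
  · intro q hq
    obtain ⟨⟨h1, h2⟩, h3⟩ := v2_Qs hq
    rw [mem_Icc]
    refine ⟨h3.one_lt.le, h2.trans ?_⟩
    exact Nat.le_self_pow (by norm_num) z
  · intro d _ _
    exact v2G_nonneg _ _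

private lemma v2_sumqq {y z : ℕ} (A : Finset ℕ) :
    ∑ q ∈ Qs y z, ∑ q' ∈ (Qs y z).erase q, v2G A (q * q') ≤ 2 * ∑ d ∈ Icc 1 (z ^ 2), v2G A d := by
  classical
  have h1 : ∑ q ∈ Qs y z, ∑ q' ∈ (Qs y z).erase q, v2G A (q * q') =
      ∑ p ∈ (Qs y z ×ˢ Qs y z).filter (fun p => p.2 ≠ p.1), v2G A (p.1 * p.2) := by
    rw [Finset.sum_filter, Finset.sum_product]
    refine sum_congr rfl fun q _ => ?_
    rw [← Finset.sum_filter]
    apply sum_congr _ fun _ _ => rfl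
    ext q'
    rw [mem_erase, mem_filter]
    tauto
  rw [h1, ← sum_fiberwise_of_maps_to (g := fun p : ℕ × ℕ => p.1 * p.2) (t := Icc 1 (z ^ 2)), mul_sum]
  · apply sum_le_sum
    intro d _
    have h2 : ∑ p ∈ ((Qs y z ×ˢ Qs y z).filter (fun p => p.2 ≠ p.1)).filter (fun p => p.1 * p.2 = d), v2G A (p.1 * p.2) =
        ((((Qs y z ×ˢ Qs y z).filter (fun p => p.2 ≠ p.1)).filter (fun p => p.1 * p.2 = d)).card : ℝ) * v2G A d := by
      rw [sum_congr rfl (g := fun _ => v2G A d), sum_const, nsmul_eq_mul]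
      intro p hp
      rw [(mem_filter.1 hp).2]
    rw [h2]
    apply mul_le_mul_of_nonneg_right _ (v2G_nonneg _ _)
    rcases ((((Qs y z ×ˢ Qs y z).filter (fun p => p.2 ≠ p.1)).filter (fun p => p.1 * p.2 = d))).eq_empty_or_nonempty with he | ⟨⟨a, b⟩, hab⟩
    · rw [he]
      simp
    · have h3 : (((Qs y z ×ˢ Qs y z).filter (fun p => p.2 ≠ p.1)).filter (fun p => p.1 * p.2 = d)) ⊆ {(a, b), (b, a)} := by
        rintro ⟨a', b'⟩ h'
        simp only [mem_filter, mem_product] at hab h'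
        have ha := (v2_Qs hab.1.1.1).2
        have hb := (v2_Qs hab.1.1.2).2
        have ha' := (v2_Qs h'.1.1.1).2
        have hb' := (v2_Qs h'.1.1.2).2
        have he : a' * b' = a * b := by rw [h'.2, hab.2]
        have hd : a' ∣ a * b := ⟨b', he.symm⟩
        rw [mem_insert, mem_singleton, Prod.mk.injEq, Prod.mk.injEq]
        rcases (Nat.Prime.dvd_mul ha').1 hd with h | h
        · have e := (Nat.prime_dvd_prime_iff_eq ha' ha).1 h
          subst e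
          left
          exact ⟨rfl, Nat.eq_of_mul_eq_mul_left ha'.pos he⟩
        · have e := (Nat.prime_dvd_prime_iff_eq ha' hb).1 h
          subst e
          right
          refine ⟨rfl, Nat.eq_of_mul_eq_mul_left ha'.pos ?_⟩
          rw [he, mul_comm]
      have h4 := (card_le_card h3).trans card_le_two
      exact_mod_cast h4
  · intro p hp
    obtain ⟨h3, _⟩ := mem_filter.1 hp
    obtain ⟨h4, h5⟩ := mem_product.1 h3
    obtain ⟨⟨_, h6⟩, h7⟩ := v2_Qs h4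
    obtain ⟨⟨_, h8⟩, h9⟩ := v2_Qs h5
    rw [mem_Icc, sq]
    exact ⟨Nat.mul_pos h7.pos h9.pos, Nat.mul_le_mul h6 h8⟩

private lemma v2_harm {y z : ℕ} (hz : 1 ≤ z) : ∑ q ∈ Qs y z, 1 / (q : ℝ) ≤ 1 + Real.log z := by
  have h1 : ∑ q ∈ Qs y z, 1 / (q : ℝ) ≤ ∑ n ∈ Icc 1 z, 1 / (n : ℝ) := by
    apply sum_le_sum_of_subset_of_nonneg
    · intro q hq
      obtain ⟨⟨_, h2⟩, h3⟩ := v2_Qs hq
      rw [mem_Icc]
      exact ⟨h3.one_lt.le, h2⟩
    · intro n _ _
      positivity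
  refine h1.trans ?_
  have h2 := harmonic_le_one_add_log z
  rw [harmonic_eq_sum_Icc] at h2
  push_cast at h2
  simpa [one_div] using h2

theorem sumV : ∃ C : ℝ, 0 < C ∧ ∀ (y z N0 M : ℕ) (A : Finset ℕ), 2 ≤ y → y ≤ z → z ^ 4 ≤ M →
    A ⊆ Ioc N0 (N0 + M) →
    ∑ q ∈ Qs y z, Vd q A + ∑ q ∈ Qs y z, ∑ q' ∈ (Qs y z).erase q, Vd (q * q') A ≤
      C * (1 + Real.log z) ^ 2 / y * M * A.card := by
  obtain ⟨C, hC, h⟩ := v2_sieve
  refine ⟨5 * C, by positivity, fun y z N0 M A hy hyz hM hA => ?_⟩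
  have h0 := h z N0 M A (by omega) hM hA
  set L : ℝ := ∑ d ∈ Icc 1 (z ^ 2), v2G A d with hL
  have hL0 : 0 ≤ L := sum_nonneg fun _ _ => v2G_nonneg _ _
  have hy0 : (2 : ℝ) ≤ y := by exact_mod_cast hy
  have hz0 : (2 : ℝ) ≤ z := by exact_mod_cast hy.trans hyz
  have hl : 0 ≤ Real.log z := Real.log_nonneg (by linarith)
  have hinv : ∀ q ∈ Qs y z, 1 / (q : ℝ) ≤ 1 / (y : ℝ) := by
    intro q hq
    have h1 : (y : ℝ) ≤ q := by exact_mod_cast (v2_Qs hq).1.1.le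
    exact one_div_le_one_div_of_le (by linarith) h1
  have hG1 : ∑ q ∈ Qs y z, 1 / (q : ℝ) * v2G A q ≤ L / y := by
    calc ∑ q ∈ Qs y z, 1 / (q : ℝ) * v2G A q ≤ ∑ q ∈ Qs y z, 1 / (y : ℝ) * v2G A q := by
          apply sum_le_sum
          intro q hq
          exact mul_le_mul_of_nonneg_right (hinv q hq) (v2G_nonneg _ _)
      _ = 1 / (y : ℝ) * ∑ q ∈ Qs y z, v2G A q := by rw [mul_sum]
      _ ≤ 1 / (y : ℝ) * L := by
          apply mul_le_mul_of_nonneg_left (v2_sumq hy hyz A)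
          positivity
      _ = L / y := by ring
  have hG0 : 0 ≤ ∑ q ∈ Qs y z, 1 / (q : ℝ) * v2G A q :=
    sum_nonneg fun q _ => mul_nonneg (by positivity) (v2G_nonneg _ _)
  have hA1 : ∑ q ∈ Qs y z, Vd q A ≤ L / y := by
    refine le_trans (le_of_eq ?_) hG1
    exact sum_congr rfl fun q hq => v2_Vq (v2_Qs hq).2 A
  have hA2 : ∑ q ∈ Qs y z, ∑ q' ∈ (Qs y z).erase q, Vd (q * q') A ≤ 2 * L / y + 2 * ((1 + Real.log z) * (L / y)) := by
    have e1 : ∑ q ∈ Qs y z, ∑ q' ∈ (Qs y z).erase q, Vd (q * q') A =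
        ∑ q ∈ Qs y z, ∑ q' ∈ (Qs y z).erase q, 1 / ((q : ℝ) * q') * v2G A (q * q') +
        ∑ q ∈ Qs y z, ∑ q' ∈ (Qs y z).erase q, (1 / (q' : ℝ) * (1 / (q : ℝ) * v2G A q) +
          1 / (q : ℝ) * (1 / (q' : ℝ) * v2G A q')) := by
      rw [← sum_add_distrib]
      refine sum_congr rfl fun q hq => ?_
      rw [← sum_add_distrib]
      refine sum_congr rfl fun q' hq' => ?_
      rw [mem_erase] at hq'
      exact v2_Vqq (v2_Qs hq).2 (v2_Qs hq'.2).2 hq'.1.symm A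
    rw [e1]
    apply add_le_add
    · calc ∑ q ∈ Qs y z, ∑ q' ∈ (Qs y z).erase q, 1 / ((q : ℝ) * q') * v2G A (q * q')
          ≤ ∑ q ∈ Qs y z, ∑ q' ∈ (Qs y z).erase q, 1 / (y : ℝ) * v2G A (q * q') := by
            apply sum_le_sum
            intro q hq
            apply sum_le_sum
            intro q' hq'
            apply mul_le_mul_of_nonneg_right _ (v2G_nonneg _ _)
            rw [mem_erase] at hq'
            have h1 : (y : ℝ) ≤ q := by exact_mod_cast (v2_Qs hq).1.1.le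
            have h2 : (y : ℝ) ≤ q' := by exact_mod_cast (v2_Qs hq'.2).1.1.le
            apply one_div_le_one_div_of_le (by linarith)
            nlinarith
        _ = 1 / (y : ℝ) * ∑ q ∈ Qs y z, ∑ q' ∈ (Qs y z).erase q, v2G A (q * q') := by
            rw [mul_sum]
            refine sum_congr rfl fun q _ => ?_
            rw [mul_sum]
        _ ≤ 1 / (y : ℝ) * (2 * L) := by
            apply mul_le_mul_of_nonneg_left (v2_sumqq A)
            positivity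
        _ = 2 * L / y := by ring
    · calc ∑ q ∈ Qs y z, ∑ q' ∈ (Qs y z).erase q, (1 / (q' : ℝ) * (1 / (q : ℝ) * v2G A q) +
            1 / (q : ℝ) * (1 / (q' : ℝ) * v2G A q'))
          ≤ ∑ q ∈ Qs y z, ∑ q' ∈ Qs y z, (1 / (q' : ℝ) * (1 / (q : ℝ) * v2G A q) +
            1 / (q : ℝ) * (1 / (q' : ℝ) * v2G A q')) := by
            apply sum_le_sum
            intro q _
            apply sum_le_sum_of_subset_of_nonneg (erase_subset _ _)
            intro q' _ _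
            have := v2G_nonneg A q
            have := v2G_nonneg A q'
            positivity
        _ = 2 * ((∑ q ∈ Qs y z, 1 / (q : ℝ)) * ∑ q ∈ Qs y z, 1 / (q : ℝ) * v2G A q) := by
            have e2 : ∑ q ∈ Qs y z, ∑ q' ∈ Qs y z, (1 / (q' : ℝ) * (1 / (q : ℝ) * v2G A q) +
                1 / (q : ℝ) * (1 / (q' : ℝ) * v2G A q')) =
                ∑ q ∈ Qs y z, ∑ q' ∈ Qs y z, 1 / (q' : ℝ) * (1 / (q : ℝ) * v2G A q) +
                ∑ q ∈ Qs y z, ∑ q' ∈ Qs y z, 1 / (q : ℝ) * (1 / (q' : ℝ) * v2G A q') := by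
              rw [← sum_add_distrib]
              refine sum_congr rfl fun q _ => ?_
              rw [← sum_add_distrib]
            rw [e2, sum_comm (s := Qs y z) (t := Qs y z) (f := fun q q' => 1 / (q' : ℝ) * (1 / (q : ℝ) * v2G A q)),
              sum_mul_sum]
            ring
        _ ≤ 2 * ((1 + Real.log z) * (L / y)) := by
            apply mul_le_mul_of_nonneg_left _ (by norm_num)
            apply mul_le_mul (v2_harm (by omega)) hG1 hG0 (by positivity)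
  have h3 : ∑ q ∈ Qs y z, Vd q A + ∑ q ∈ Qs y z, ∑ q' ∈ (Qs y z).erase q, Vd (q * q') A ≤
      5 * (1 + Real.log z) * (L / y) := by
    have hLy : 0 ≤ L / y := by positivity
    have h4 : 0 ≤ Real.log z * (L / y) := mul_nonneg hl hLy
    have h5 : 2 * L / y = 2 * (L / y) := by ring
    rw [h5] at hA2
    nlinarith
  refine h3.trans ?_
  have h6 : L / y ≤ (C * (1 + Real.log z) * M * A.card) / y := by
    apply div_le_div_of_nonneg_right h0
    positivity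
  calc 5 * (1 + Real.log z) * (L / y) ≤ 5 * (1 + Real.log z) * ((C * (1 + Real.log z) * M * A.card) / y) := by
        apply mul_le_mul_of_nonneg_left h6
        positivity
    _ = _ := by ring

end Pool.Agent.TNY
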