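import Pool.Agent.TNY.Gp

/-!
# TNY/Wn: `k(n) > K` for a positive proportion of a window (difficulty 3)

`U' = U + 1`, `X = N / y ≥ y ^ U`, `X ≥ N / (2 y)`, `X ≤ y ^ k`.  For a prime `p` with `y < 4 p`, `p ≤ y` (at least `(1 / 5) y / log y`: `TN.exists_prime_count`) and a pair `x` of `good_pairs`,
`m = x.1 x.2`: `n = p m ≤ y X ≤ N`, `P m ≤ y / 4 < p` so `P n = p` and `n / P n = m`; for `1 ≤ h ≤ K`: `P (m + h) > y ≥ P n`, so `K < kk n` (`kk_spec`: `P (m + kk n) ≤ P n`, `kk n ≥ 1`).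
Different `(p, x)` give different `n` (`p = P n`, `Pairs_inj`).  Number at least `(1 / 5) (y / log y) * c X ≥ (c / 10) N / log y`.
-/

namespace Pool.Agent.TNY

open Pool.Agent.TN Pool.Agent.TNX Finset

/-- The count on one window, from a set of good pairs. -/
private theorem wn_inject {K y N r : ℕ} (S : Finset (ℕ × ℕ)) (hS : S ⊆ Pairs (y / 4) r (N / y))
    (hg : ∀ x ∈ S, ∀ h : ℕ, 1 ≤ h → h ≤ K → y < P (x.1 * x.2 + h)) :
    ((Nat.primesLE y).filter (fun p => y < 4 * p)).card * S.card ≤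
      {n | (1 ≤ n ∧ n ≤ N) ∧ (y < 4 * P n ∧ P n ≤ y) ∧ K < kk n}.ncard := by
  classical
  obtain ⟨A, hA⟩ : ∃ A : Finset (ℕ × (ℕ × ℕ)),
    A = ((Nat.primesLE y).filter (fun p => y < 4 * p)) ×ˢ S := ⟨_, rfl⟩
  have hcard : A.card = ((Nat.primesLE y).filter (fun p => y < 4 * p)).card * S.card := by
    rw [hA, Finset.card_product]
  rw [← hcard, ← Set.ncard_coe_finset]
  have hprop : ∀ s ∈ A, s.1.Prime ∧ s.1 ≤ y ∧ y < 4 * s.1 ∧ s.2 ∈ S ∧ 1 ≤ s.2.1 * s.2.2 ∧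
      s.2.1 * s.2.2 ≤ N / y ∧ P (s.2.1 * s.2.2) ≤ y / 4 := by
    intro s hs
    rw [hA, Finset.mem_product] at hs
    have h1 := Finset.mem_filter.mp hs.1
    have h2 := Nat.mem_primesLE.mp h1.1
    have h3 := Pairs_spec (hS hs.2)
    exact ⟨h2.2, h2.1, h1.2, hs.2, h3.1, h3.2.1, h3.2.2⟩
  have hPval : ∀ s ∈ A, P (s.1 * (s.2.1 * s.2.2)) = s.1 := by
    intro s hs
    obtain ⟨h1, h2, h3, h4, h5, h6, h7⟩ := hprop s hs
    apply le_antisymm
    · exact P_mul_le h1 le_rfl (by omega) (by omega)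
    · apply le_P
      rw [Nat.primeFactors_mul h1.ne_zero (by omega), Finset.mem_union]
      left
      rw [h1.primeFactors, Finset.mem_singleton]
  have hfin : {n | (1 ≤ n ∧ n ≤ N) ∧ (y < 4 * P n ∧ P n ≤ y) ∧ K < kk n}.Finite := by
    apply (Set.finite_Iic N).subset
    intro n hn
    exact hn.1.2
  apply Set.ncard_le_ncard_of_injOn (fun s => s.1 * (s.2.1 * s.2.2)) _ _ hfin
  · intro s hs
    rw [Finset.mem_coe] at hs
    obtain ⟨h1, h2, h3, h4, h5, h6, h7⟩ := hprop s hs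
    have h8 := hPval s hs
    refine ⟨⟨Nat.mul_pos h1.pos h5, ?_⟩, ⟨?_, ?_⟩, ?_⟩
    · calc s.1 * (s.2.1 * s.2.2) ≤ y * (N / y) := Nat.mul_le_mul h2 h6
        _ ≤ N := Nat.mul_div_le _ _
    · rw [h8]; exact h3
    · rw [h8]; exact h2
    · by_contra hle
      have h9 : 2 ≤ s.1 * (s.2.1 * s.2.2) := by
        calc 2 = 2 * 1 := rfl
          _ ≤ s.1 * (s.2.1 * s.2.2) := Nat.mul_le_mul h1.two_le h5
      obtain ⟨h10, h11⟩ := kk_spec h9
      rw [h8, Nat.mul_div_cancel_left _ h1.pos] at h11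
      have h12 := hg s.2 h4 _ h10 (not_lt.mp hle)
      omega
  · intro s hs s' hs' heq
    rw [Finset.mem_coe] at hs hs'
    simp only at heq
    have h7 := hPval s hs
    have h8 := hPval s' hs'
    have h9 : s.1 = s'.1 := by rw [← h7, heq, h8]
    have h10 : s.2.1 * s.2.2 = s'.2.1 * s'.2.2 := by
      rw [← h9] at heq
      exact Nat.eq_of_mul_eq_mul_left (hprop s hs).1.pos heq
    have h11 : s.2 = s'.2 := Pairs_inj (y / 4) r (N / y)
      (Finset.mem_coe.mpr (hS (hprop s hs).2.2.2.1)) (Finset.mem_coe.mpr (hS (hprop s' hs').2.2.2.1)) h10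
    exact Prod.ext h9 h11

theorem window_kk (K : ℕ) : ∃ U : ℕ, ∀ k : ℕ, ∃ c : ℝ, 0 < c ∧ ∃ y0 : ℕ, ∀ y N : ℕ, y0 ≤ y →
    y ^ U ≤ N → N ≤ y ^ k →
      c * (N / Real.log y) ≤
        ({n | (1 ≤ n ∧ n ≤ N) ∧ (y < 4 * P n ∧ P n ≤ y) ∧ K < kk n}.ncard : ℝ) := by
  obtain ⟨U, r, hU⟩ := good_pairs K
  refine ⟨U + 1, fun k => ?_⟩
  obtain ⟨c, hc, z0, h⟩ := hU k
  obtain ⟨y1, h1⟩ := exists_prime_count
  refine ⟨c / 10, by positivity, max (max z0 y1) 20, ?_⟩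
  intro y N hy hyN hN
  have hya : z0 ≤ y := (le_max_left _ _).trans ((le_max_left _ _).trans hy)
  have hyb : y1 ≤ y := (le_max_right _ _).trans ((le_max_left _ _).trans hy)
  have hyc : 20 ≤ y := (le_max_right _ _).trans hy
  have hy0 : 0 < y := by omega
  have hUX : y ^ U ≤ N / y := by
    rw [Nat.le_div_iff_mul_le hy0, ← pow_succ]
    exact hyN
  have hXk : N / y ≤ y ^ k := (Nat.div_le_self _ _).trans hN
  have hdiv1 : 1 ≤ N / y := (Nat.one_le_pow _ _ hy0).trans hUX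
  obtain ⟨S, hS1, hS2, hS3⟩ := h y (N / y) hya hUX hXk
  have h3 := h1 y hyb
  have h4 := wn_inject S hS1 hS3
  have hypos : (0 : ℝ) < y := by exact_mod_cast hy0
  have hlog : 0 < Real.log y := Real.log_pos (by
    have : 1 < y := by omega
    exact_mod_cast this)
  have h5 : (N : ℝ) / y / 2 ≤ ((N / y : ℕ) : ℝ) := by
    have h10 := Nat.lt_floor_add_one ((N : ℝ) / y)
    rw [Nat.floor_div_natCast, Nat.floor_natCast] at h10
    have h11 : (1 : ℝ) ≤ ((N / y : ℕ) : ℝ) := by exact_mod_cast hdiv1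
    linarith
  calc c / 10 * (N / Real.log y) = (1 / 5 * (y / Real.log y)) * (c * (N / y / 2)) := by
        field_simp
        ring
    _ ≤ (((Nat.primesLE y).filter (fun p => y < 4 * p)).card : ℝ) * (S.card : ℝ) := by
        apply mul_le_mul h3 _ (by positivity) (Nat.cast_nonneg _)
        exact (mul_le_mul_of_nonneg_left h5 hc.le).trans hS2
    _ ≤ _ := by exact_mod_cast h4

end Pool.Agent.TNY
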